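import Pool.Agent.Helper32.DO.Grid

/-!
# Selection of the cells which avoid the targets
-/

set_option autoImplicit false

namespace Pool.Agent.Helper32.DO

open Set Filter Topology

/-- `k` is one of the exponents treated in a cell of length `l` with left end `a`. -/
def Act (N : ℕ) (l a : ℝ) (k : ℕ) : Prop :=
  1 ≤ k ∧ 1 / (4 * N * l) < k * a ^ (k - 1) ∧ k * a ^ (k - 1) ≤ 1 / (4 * l)

/-- The point `x` avoids the target `ξ k` at the exponent `k`. -/
def Avoid (δ : ℝ) (ξ : ℕ → ℝ) (k : ℕ) (x : ℝ) : Prop := ∀ m : ℤ, δ ≤ |x ^ k - ξ k - m|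

/-- The cell `i` is good. -/
def Good (N : ℕ) (δ : ℝ) (ξ : ℕ → ℝ) (l a : ℝ) (i : ℕ) : Prop :=
  ∀ k, Act N l a k → ∀ x : ℝ, a + i * (l / N) ≤ x → x ≤ a + (i + 1) * (l / N) → Avoid δ ξ k x

theorem pow_sub_ge {a x y : ℝ} (ha : 0 ≤ a) (hax : a ≤ x) (hxy : x ≤ y) (k : ℕ) :
    (k : ℝ) * a ^ (k - 1) * (y - x) ≤ y ^ k - x ^ k := by
  rw [← (Commute.all y x).geom_sum₂_mul]
  have h1 : (k : ℝ) * a ^ (k - 1) ≤ ∑ i ∈ Finset.range k, y ^ i * x ^ (k - 1 - i) := by
    have h2 : ∀ i ∈ Finset.range k, a ^ (k - 1) ≤ y ^ i * x ^ (k - 1 - i) := by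
      intro i hi
      rw [Finset.mem_range] at hi
      have e : a ^ (k - 1) = a ^ i * a ^ (k - 1 - i) := by
        rw [← pow_add]; congr 1; omega
      rw [e]
      have hx0 : 0 ≤ x := ha.trans hax
      have hy0 : 0 ≤ y := hx0.trans hxy
      exact mul_le_mul (pow_le_pow_left₀ ha (hax.trans hxy) i) (pow_le_pow_left₀ ha hax _)
        (by positivity) (by positivity)
    have h3 := Finset.card_nsmul_le_sum _ _ _ h2
    rwa [Finset.card_range, nsmul_eq_mul] at h3
  exact mul_le_mul_of_nonneg_right h1 (by linarith)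

theorem pow_sub_le {x y B : ℝ} (hx : 0 ≤ x) (hxy : x ≤ y) (hyB : y ≤ B) (k : ℕ) :
    y ^ k - x ^ k ≤ (k : ℝ) * B ^ (k - 1) * (y - x) := by
  rw [← (Commute.all y x).geom_sum₂_mul]
  have h1 : ∑ i ∈ Finset.range k, y ^ i * x ^ (k - 1 - i) ≤ (k : ℝ) * B ^ (k - 1) := by
    have h2 : ∀ i ∈ Finset.range k, y ^ i * x ^ (k - 1 - i) ≤ B ^ (k - 1) := by
      intro i hi
      rw [Finset.mem_range] at hi
      have e : B ^ (k - 1) = B ^ i * B ^ (k - 1 - i) := by
        rw [← pow_add]; congr 1; omega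
      rw [e]
      have hy : 0 ≤ y := hx.trans hxy
      have hxB : x ≤ B := hxy.trans hyB
      have hB : 0 ≤ B := hx.trans hxB
      exact mul_le_mul (pow_le_pow_left₀ hy hyB i) (pow_le_pow_left₀ hx hxB _)
        (by positivity) (by positivity)
    have h3 := Finset.sum_le_card_nsmul _ _ _ h2
    rwa [Finset.card_range, nsmul_eq_mul] at h3
  exact mul_le_mul_of_nonneg_right h1 (by linarith)

/-- The image of the cell under an active power has length less than `1/2`. -/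
theorem image_lt {N : ℕ} {l a : ℝ} {k : ℕ} (hl : 0 < l) (ha : 1 ≤ a) (hk : Act N l a k) {x y : ℝ}
    (hx : a ≤ x) (hxy : x ≤ y) (hy : y ≤ a + l) : y ^ k - x ^ k < 1 / 2 := by
  obtain ⟨hk1, -, hk3⟩ := hk
  have h1 := pow_sub_le (by linarith : 0 ≤ x) hxy hy k
  have hkl : (k : ℝ) * l ≤ 1 / 4 := by
    have h2 : (k : ℝ) ≤ 1 / (4 * l) := by
      refine le_trans ?_ hk3
      exact le_mul_of_one_le_right (Nat.cast_nonneg k) (one_le_pow₀ ha)
    rw [le_div_iff₀ (by positivity)] at h2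
    linarith
  have h3 : (a + l) ^ (k - 1) ≤ a ^ (k - 1) * Real.exp (1 / 4) := by
    have h4 : a + l ≤ a * Real.exp l := by
      have := Real.add_one_le_exp l
      nlinarith
    calc (a + l) ^ (k - 1) ≤ (a * Real.exp l) ^ (k - 1) := by gcongr
      _ = a ^ (k - 1) * Real.exp ((k - 1 : ℕ) * l) := by rw [mul_pow, ← Real.exp_nat_mul]
      _ ≤ a ^ (k - 1) * Real.exp (1 / 4) := by
          gcongr
          have : ((k - 1 : ℕ) : ℝ) ≤ k := by exact_mod_cast Nat.sub_le k 1
          nlinarith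
  have h5 : Real.exp (1 / 4) < 2 := by
    have h6 : Real.exp (1 / 4) ^ 4 = Real.exp 1 := by rw [← Real.exp_nat_mul]; norm_num
    have h7 := Real.exp_one_lt_d9
    by_contra hc
    push Not at hc
    have : (2 : ℝ) ^ 4 ≤ Real.exp (1 / 4) ^ 4 := by gcongr
    rw [h6] at this
    norm_num at this
    linarith
  have hp : 0 < a ^ (k - 1) := by positivity
  have hk0 : (0 : ℝ) < k := by exact_mod_cast hk1
  calc y ^ k - x ^ k ≤ (k : ℝ) * (a + l) ^ (k - 1) * (y - x) := h1
    _ ≤ (k : ℝ) * (a ^ (k - 1) * Real.exp (1 / 4)) * l := by gcongr; linarith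
    _ = (k * a ^ (k - 1)) * l * Real.exp (1 / 4) := by ring
    _ ≤ 1 / (4 * l) * l * Real.exp (1 / 4) := by gcongr
    _ = 1 / 4 * Real.exp (1 / 4) := by field_simp
    _ < 1 / 2 := by linarith

/-- Two bad points of the cell for the same exponent are closer than the length of a subcell. -/
theorem bad_close {N : ℕ} (hN : 2 ≤ N) {l a : ℝ} {ξ : ℕ → ℝ} {k : ℕ} (hl : 0 < l) (ha : 1 ≤ a)
    (hk : Act N l a k) {x y : ℝ} (hx : a ≤ x) (hxy : x ≤ y) (hy : y ≤ a + l)
    (bx : ¬ Avoid (1 / (8 * (N : ℝ) ^ 2)) ξ k x) (by' : ¬ Avoid (1 / (8 * (N : ℝ) ^ 2)) ξ k y) :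
    y - x < l / N := by
  unfold Avoid at bx by'
  push Not at bx by'
  obtain ⟨m, hm⟩ := bx
  obtain ⟨m', hm'⟩ := by'
  have hN2 : (2 : ℝ) ≤ N := by exact_mod_cast hN
  have hN0 : (0 : ℝ) < N := by linarith
  have h1 := image_lt hl ha hk hx hxy hy
  have h0 : x ^ k ≤ y ^ k := by
    have : 0 ≤ x := by linarith
    gcongr
  have hδ : 1 / (8 * (N : ℝ) ^ 2) ≤ 1 / 32 := by
    apply div_le_div_of_nonneg_left (by norm_num) (by norm_num)
    nlinarith
  rw [abs_lt] at hm hm'
  have hmm : m = m' := by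
    have h2 : |(m : ℝ) - m'| < 1 := by
      rw [abs_lt]
      constructor <;> linarith
    have h3 : |m - m'| < 1 := by exact_mod_cast h2
    have h4 := Int.abs_lt_one_iff.1 h3
    omega
  subst hmm
  have h2 : y ^ k - x ^ k < 1 / (4 * (N : ℝ) ^ 2) := by
    have e : 1 / (4 * (N : ℝ) ^ 2) = 1 / (8 * (N : ℝ) ^ 2) + 1 / (8 * (N : ℝ) ^ 2) := by field_simp; norm_num
    rw [e]
    linarith
  have h3 := pow_sub_ge (by linarith : (0 : ℝ) ≤ a) hx hxy k
  have h4 : 1 / (4 * N * l) * (y - x) ≤ (k : ℝ) * a ^ (k - 1) * (y - x) :=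
    mul_le_mul_of_nonneg_right hk.2.1.le (by linarith)
  have h5 : 1 / (4 * N * l) * (y - x) < 1 / (4 * (N : ℝ) ^ 2) := by linarith
  rw [one_div_mul_eq_div, div_lt_div_iff₀ (by positivity) (by positivity)] at h5
  rw [lt_div_iff₀ hN0]
  have h6 : ((y - x) * N) * (4 * N) < l * (4 * N) := by
    calc ((y - x) * N) * (4 * N) = (y - x) * (4 * (N : ℝ) ^ 2) := by ring
      _ < 1 * (4 * N * l) := h5
      _ = l * (4 * N) := by ring
  exact lt_of_mul_lt_mul_right h6 (by positivity)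

/-- At most two subcells are bad for a given exponent. -/
theorem card_bad {N : ℕ} (hN : 2 ≤ N) {l a : ℝ} {ξ : ℕ → ℝ} {k : ℕ} (hl : 0 < l) (ha : 1 ≤ a)
    (hk : Act N l a k) (B : Finset ℕ)
    (hB : ∀ i ∈ B, i < N ∧ ∃ x : ℝ, a + i * (l / N) ≤ x ∧ x ≤ a + (i + 1) * (l / N) ∧
      ¬ Avoid (1 / (8 * (N : ℝ) ^ 2)) ξ k x) : B.card ≤ 2 := by
  have hN0 : (0 : ℝ) < N := by exact_mod_cast (by omega : 0 < N)
  have hlN : 0 < l / N := by positivity
  rcases B.eq_empty_or_nonempty with rfl | hne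
  · simp
  have hsub : B ⊆ Finset.Icc (B.min' hne) (B.min' hne + 1) := by
    intro i hi
    rw [Finset.mem_Icc]
    have h1 := B.min'_le i hi
    refine ⟨h1, ?_⟩
    by_contra hc
    push Not at hc
    obtain ⟨hi1, y, hy1, hy2, hy3⟩ := hB i hi
    obtain ⟨-, x, hx1, hx2, hx3⟩ := hB _ (B.min'_mem hne)
    set j := B.min' hne
    have hij : ((j : ℝ) + 1) + 1 ≤ i := by exact_mod_cast hc
    have hxy : x + l / N ≤ y := by
      have : (a + ((j : ℝ) + 1) * (l / N)) + l / N ≤ a + i * (l / N) := by nlinarith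
      linarith
    have hax : a ≤ x := by
      have : (0 : ℝ) ≤ j * (l / N) := by positivity
      linarith
    have hyl : y ≤ a + l := by
      have h2 : ((i : ℝ) + 1) ≤ N := by exact_mod_cast hi1
      have h3 : ((i : ℝ) + 1) * (l / N) ≤ N * (l / N) := by gcongr
      have h4 : (N : ℝ) * (l / N) = l := by field_simp
      linarith
    have := bad_close hN hl ha hk hax (by linarith) hyl hx3 hy3
    linarith
  have h2 := Finset.card_le_card hsub
  rw [Nat.card_Icc] at h2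
  omega

/-- The number of active exponents. -/
theorem card_act {N : ℕ} (hN : 2 ≤ N) {θ l a : ℝ} (hl : 0 < l) (hθ : 1 < θ) (ha : θ ≤ a) (S : Finset ℕ)
    (hS : ∀ k ∈ S, Act N l a k) : S.card ≤ ⌊Real.log N / Real.log θ⌋₊ + 1 := by
  have hN0 : (0 : ℝ) < N := by exact_mod_cast (by omega : 0 < N)
  rcases S.eq_empty_or_nonempty with rfl | hne
  · simp
  have ha0 : 0 < a := by linarith
  have hlogθ : 0 < Real.log θ := Real.log_pos hθ
  have hsub : S ⊆ Finset.Icc (S.min' hne) (S.min' hne + ⌊Real.log N / Real.log θ⌋₊) := by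
    intro k' hk'
    rw [Finset.mem_Icc]
    have h1 := S.min'_le k' hk'
    refine ⟨h1, ?_⟩
    obtain ⟨hk1, hk2, hk3⟩ := hS _ (S.min'_mem hne)
    obtain ⟨hk1', hk2', hk3'⟩ := hS k' hk'
    set k := S.min' hne
    have h2 : k' - k ≤ ⌊Real.log N / Real.log θ⌋₊ := by
      rw [Nat.le_floor_iff (div_nonneg (Real.log_natCast_nonneg N) hlogθ.le), le_div_iff₀ hlogθ]
      have h3 : (k' : ℝ) * a ^ (k' - 1) < N * (k * a ^ (k - 1)) := by
        have e : 1 / (4 * l) = N * (1 / (4 * N * l)) := by field_simp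
        calc (k' : ℝ) * a ^ (k' - 1) ≤ 1 / (4 * l) := hk3'
          _ = N * (1 / (4 * N * l)) := e
          _ < N * (k * a ^ (k - 1)) := by gcongr
      have h4 : (k : ℝ) ≤ k' := by exact_mod_cast h1
      have hk0 : (0 : ℝ) < k := by exact_mod_cast hk1
      have e : a ^ (k' - 1) = a ^ (k - 1) * a ^ (k' - k) := by
        rw [← pow_add]; congr 1; omega
      have h5 : a ^ (k' - k) < N := by
        have h6 : (k : ℝ) * a ^ (k - 1) * a ^ (k' - k) < k * a ^ (k - 1) * N := by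
          calc (k : ℝ) * a ^ (k - 1) * a ^ (k' - k) ≤ k' * a ^ (k - 1) * a ^ (k' - k) := by gcongr
            _ = k' * a ^ (k' - 1) := by rw [e]; ring
            _ < N * (k * a ^ (k - 1)) := h3
            _ = _ := by ring
        exact lt_of_mul_lt_mul_left h6 (by positivity)
      have h6 : θ ^ (k' - k) ≤ N := le_trans (by gcongr) h5.le
      have h7 := Real.log_le_log (by positivity) h6
      rwa [Real.log_pow] at h7
    omega
  have h2 := Finset.card_le_card hsub
  rw [Nat.card_Icc] at h2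
  omega

/-- There are many good subcells. -/
theorem exists_select {N : ℕ} (hN : 2 ≤ N) {θ l a : ℝ} (ξ : ℕ → ℝ) (hl : 0 < l) (hθ : 1 < θ) (ha : θ ≤ a) (b : ℕ)
    (hb : b + 2 * (⌊Real.log N / Real.log θ⌋₊ + 1) ≤ N) :
    ∃ g : ℕ → ℕ, (∀ i < b, g i < N) ∧ (∀ i j, i < b → j < b → g i = g j → i = j) ∧
      ∀ i < b, Good N (1 / (8 * (N : ℝ) ^ 2)) ξ l a (g i) := by
  classical
  have hN0 : (0 : ℝ) < N := by exact_mod_cast (by omega : 0 < N)
  set K := ⌊Real.log N / Real.log θ⌋₊ + 1 with hK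
  set M := ⌊1 / (4 * l)⌋₊ + 1 with hM
  set S : Finset ℕ := (Finset.range M).filter (Act N l a) with hS
  set Bd : ℕ → Finset ℕ := fun k => (Finset.range N).filter fun i =>
    ∃ x : ℝ, a + i * (l / N) ≤ x ∧ x ≤ a + (i + 1) * (l / N) ∧ ¬ Avoid (1 / (8 * (N : ℝ) ^ 2)) ξ k x with hBd
  set A : Finset ℕ := (Finset.range N).filter (Good N (1 / (8 * (N : ℝ) ^ 2)) ξ l a) with hA
  have ha1 : 1 ≤ a := by linarith
  have hmem : ∀ k, Act N l a k → k ∈ S := by
    intro k hk
    rw [hS, Finset.mem_filter, Finset.mem_range]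
    refine ⟨?_, hk⟩
    have h2 : (k : ℝ) ≤ 1 / (4 * l) := by
      refine le_trans ?_ hk.2.2
      exact le_mul_of_one_le_right (Nat.cast_nonneg k) (one_le_pow₀ ha1)
    have := Nat.le_floor h2
    omega
  have hcov : Finset.range N ⊆ A ∪ S.biUnion Bd := by
    intro i hi
    rw [Finset.mem_union]
    by_cases h : Good N (1 / (8 * (N : ℝ) ^ 2)) ξ l a i
    · left
      rw [hA, Finset.mem_filter]
      exact ⟨hi, h⟩
    · right
      unfold Good at h
      push Not at h
      obtain ⟨k, hk, x, hx1, hx2, hx3⟩ := h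
      rw [Finset.mem_biUnion]
      refine ⟨k, hmem k hk, ?_⟩
      rw [hBd, Finset.mem_filter]
      exact ⟨hi, x, hx1, hx2, hx3⟩
  have h1 : (S.biUnion Bd).card ≤ K * 2 := by
    calc (S.biUnion Bd).card ≤ S.card * 2 := by
          refine Finset.card_biUnion_le_card_mul _ _ _ fun k hk => ?_
          rw [hS, Finset.mem_filter] at hk
          refine card_bad (ξ := ξ) hN hl ha1 hk.2 (Bd k) fun i hi => ?_
          rw [hBd, Finset.mem_filter, Finset.mem_range] at hi
          exact hi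
      _ ≤ K * 2 := by
          refine Nat.mul_le_mul_right _ (card_act hN hl hθ ha S fun k hk => ?_)
          rw [hS, Finset.mem_filter] at hk
          exact hk.2
  have h2 : b ≤ A.card := by
    have h3 := (Finset.card_le_card hcov).trans (Finset.card_union_le _ _)
    rw [Finset.card_range] at h3
    omega
  refine ⟨fun i => if h : i < b then A.orderEmbOfCardLe h2 ⟨i, h⟩ else 0, ?_, ?_, ?_⟩
  · intro i hi
    simp only [dif_pos hi]
    have h3 := A.orderEmbOfCardLe_mem h2 ⟨i, hi⟩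
    exact Finset.mem_range.1 (Finset.mem_filter.1 h3).1
  · intro i j hi hj h
    simp only [dif_pos hi, dif_pos hj] at h
    have := (A.orderEmbOfCardLe h2).injective h
    exact congrArg Fin.val this
  · intro i hi
    simp only [dif_pos hi]
    have h3 := A.orderEmbOfCardLe_mem h2 ⟨i, hi⟩
    exact (Finset.mem_filter.1 h3).2

end Pool.Agent.Helper32.DO
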