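import Pool.Agent.Helper46.TC.Tree

/-!
# The mass distribution principle for trees
-/

set_option autoImplicit false

namespace Pool.Agent.Helper32.DO

open MeasureTheory Set Filter Topology Pool.Agent.Helper46.TC
open scoped ENNReal NNReal

/-- Functions of finitely many digits are measurable. -/
theorem measurable_of_dep (f : Om → ℝ) (n : ℕ) (h : ∀ x y : Om, y ∈ cyl x n → f y = f x) :
    Measurable f := by
  classical
  let e : Om → (Fin n → ℕ) := fun x i => x i
  let g : (Fin n → ℕ) → ℝ := fun u => f (fun i => if hi : i < n then u ⟨i, hi⟩ else 0)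
  have hfg : f = g ∘ e := by
    funext x
    show f x = f (fun i => if hi : i < n then x i else 0)
    refine (h x _ fun i hi => ?_).symm
    simp [hi]
  have he : Measurable e := measurable_pi_lambda _ fun i => measurable_pi_apply _
  have hg : Measurable g := .of_discrete
  rw [hfg]
  exact hg.comp he

theorem measurable_pt (T : Tree) : Measurable T.pt := by
  have h : Measurable fun x => ⨆ n, T.lo n x :=
    Measurable.iSup fun n => measurable_of_dep _ n fun x y hy => T.dep_lo n x y hy
  exact h

/-- Bound for the measure of a set by its diameter. -/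
theorem map_le (T : Tree) (t : Set ℝ) :
    (P T.b).map T.pt t ≤ ENNReal.ofReal (T.C / (T.len 0 fun _ => 0) ^ T.s) * Metric.ediam t ^ T.s := by
  set x0 : Om := fun _ => 0 with hx0
  have hL := T.len_pos 0 x0
  set L := T.len 0 x0 with hLdef
  have hs := T.hs
  have hC := T.hC
  have hc : 0 < T.C / L ^ T.s := by positivity
  rcases t.eq_empty_or_nonempty with rfl | ⟨y, hy⟩
  · simp
  by_cases hd : Metric.ediam t = ⊤
  · rw [hd, ENNReal.top_rpow_of_pos hs, ENNReal.mul_top (by simpa using hc)]
    exact le_top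
  obtain ⟨d, hd0, hdd⟩ : ∃ d : ℝ, 0 ≤ d ∧ Metric.ediam t = ENNReal.ofReal d :=
    ⟨(Metric.ediam t).toReal, ENNReal.toReal_nonneg, (ENNReal.ofReal_toReal hd).symm⟩
  have h1 : ∀ r, d < r → (P T.b).map T.pt t ≤ ENNReal.ofReal (T.C * (r / L) ^ T.s) := by
    intro r hr
    have hr0 : 0 < r := lt_of_le_of_lt hd0 hr
    have hsub : t ⊆ {w | |w - y| < r} := by
      intro w hw
      have h2 : edist w y ≤ Metric.ediam t := Metric.edist_le_ediam_of_mem hw hy
      rw [hdd, edist_dist, ENNReal.ofReal_le_ofReal_iff hd0, Real.dist_eq] at h2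
      exact lt_of_le_of_lt h2 hr
    refine (measure_mono hsub).trans ?_
    have hm : MeasurableSet {w : ℝ | |w - y| < r} := by
      have : {w : ℝ | |w - y| < r} = Metric.ball y r := by
        ext w
        simp [Real.dist_eq]
      rw [this]
      exact measurableSet_ball
    rw [Measure.map_apply (measurable_pt T) hm]
    have h3 := T.decay y r 0 x0 hr0
    rw [cyl_zero, univ_inter, measure_univ, mul_one] at h3
    exact h3
  have h2 : Tendsto (fun r : ℝ => ENNReal.ofReal (T.C * (r / L) ^ T.s)) (𝓝[>] d)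
      (𝓝 (ENNReal.ofReal (T.C * (d / L) ^ T.s))) := by
    apply Tendsto.mono_left _ nhdsWithin_le_nhds
    have hcont : Continuous fun r : ℝ => ENNReal.ofReal (T.C * (r / L) ^ T.s) := by
      refine ENNReal.continuous_ofReal.comp (continuous_const.mul ?_)
      exact (Real.continuous_rpow_const hs.le).comp (continuous_id.div_const L)
    exact hcont.tendsto d
  have h3 : (P T.b).map T.pt t ≤ ENNReal.ofReal (T.C * (d / L) ^ T.s) := by
    refine ge_of_tendsto h2 ?_
    filter_upwards [self_mem_nhdsWithin] with r hr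
    exact h1 r hr
  refine h3.trans (le_of_eq ?_)
  rw [hdd, ENNReal.ofReal_rpow_of_nonneg hd0 hs.le, ← ENNReal.ofReal_mul hc.le]
  congr 1
  rw [Real.div_rpow hd0 hL.le]
  ring

/-- Mass distribution principle: a set which contains the limit point with positive probability has
dimension at least the decay exponent of the tree. -/
theorem le_dimH (T : Tree) (A : Set ℝ) (hA : P T.b {z | T.pt z ∈ A} ≠ 0) :
    ENNReal.ofReal T.s ≤ dimH A := by
  have hL := T.len_pos 0 fun _ => 0
  have hs := T.hs
  have hC := T.hC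
  have hc : 0 < T.C / (T.len 0 fun _ => 0) ^ T.s := by positivity
  set c : ℝ≥0∞ := ENNReal.ofReal (T.C / (T.len 0 fun _ => 0) ^ T.s) with hcdef
  have hc0 : c ≠ 0 := by rw [hcdef]; simpa using hc
  have hct : c ≠ ⊤ := ENNReal.ofReal_ne_top
  have h1 : c⁻¹ • (P T.b).map T.pt ≤ Measure.hausdorffMeasure T.s := by
    refine Measure.le_hausdorffMeasure _ _ ⊤ (by simp) fun t _ => ?_
    rw [Measure.smul_apply, smul_eq_mul]
    calc c⁻¹ * (P T.b).map T.pt t ≤ c⁻¹ * (c * Metric.ediam t ^ T.s) := by
          gcongr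
          exact map_le T t
      _ = Metric.ediam t ^ T.s := by rw [← mul_assoc, ENNReal.inv_mul_cancel hc0 hct, one_mul]
  have h2 : Measure.hausdorffMeasure T.s A ≠ 0 := by
    have h3 : c⁻¹ * P T.b {z | T.pt z ∈ A} ≤ Measure.hausdorffMeasure T.s A := by
      calc c⁻¹ * P T.b {z | T.pt z ∈ A} ≤ c⁻¹ * (P T.b).map T.pt A := by
            gcongr
            exact Measure.le_map_apply (measurable_pt T).aemeasurable A
        _ = (c⁻¹ • (P T.b).map T.pt) A := by rw [Measure.smul_apply, smul_eq_mul]
        _ ≤ _ := h1 A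
    have h4 : 0 < c⁻¹ * P T.b {z | T.pt z ∈ A} :=
      ENNReal.mul_pos (ENNReal.inv_ne_zero.2 hct) hA
    exact (lt_of_lt_of_le h4 h3).ne'
  have h5 : (Real.toNNReal T.s : ℝ) = T.s := Real.coe_toNNReal _ hs.le
  have h6 : Measure.hausdorffMeasure ((Real.toNNReal T.s : ℝ≥0) : ℝ) A ≠ 0 := by rw [h5]; exact h2
  exact le_dimH_of_hausdorffMeasure_ne_zero h6

end Pool.Agent.Helper32.DO
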