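import Pool.Agent.Helper32.DO.Cells
import Pool.Agent.Helper32.DO.Dim

/-!
# Trees of dimension near one which avoid all targets

`dim_tree`: for all `θ > 1`, `ε > 0`, targets `ξ n` and `s < 1` there is a tree with decay exponent `s`, within `ε`
of `θ`, such that all powers of all its points stay away from the targets modulo one.
-/

set_option autoImplicit false

namespace Pool.Agent.Helper32.DO

open Set Filter Topology Pool.Agent.Helper46.TC

/-- Choice of the number of subcells. -/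
theorem exists_N (θ l0 s : ℝ) (hθ : 1 < θ) (hl : 0 < l0) (hs1 : s < 1) :
    ∃ N b : ℕ, 2 ≤ N ∧ 1 ≤ b ∧ b + 2 * (⌊Real.log N / Real.log θ⌋₊ + 1) ≤ N ∧ 4 * (N : ℝ) ^ s ≤ b ∧ N ≤ 2 * b ∧
      1 < 4 * N * l0 := by
  have hlogθ : 0 < Real.log θ := Real.log_pos hθ
  have h1 : ∀ᶠ x : ℝ in atTop, Real.log x ≤ Real.log θ / 8 * x := by
    filter_upwards [Real.isLittleO_log_id_atTop.def (by positivity : 0 < Real.log θ / 8), eventually_ge_atTop 1]
      with x hx hx1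
    rw [Real.norm_eq_abs, Real.norm_eq_abs, id, abs_of_nonneg (by linarith : (0 : ℝ) ≤ x)] at hx
    exact (le_abs_self _).trans hx
  have h2 : ∀ᶠ x : ℝ in atTop, 8 ≤ x ^ (1 - s) :=
    (tendsto_rpow_atTop (by linarith : 0 < 1 - s)).eventually_ge_atTop 8
  have h3 : ∀ᶠ x : ℝ in atTop, 1 / l0 ≤ x := eventually_ge_atTop _
  obtain ⟨N, hN1, hN2, hN3, hN4⟩ := (tendsto_natCast_atTop_atTop.eventually
    (h1.and (h2.and (h3.and (eventually_ge_atTop (16 : ℝ)))))).exists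
  set K := ⌊Real.log N / Real.log θ⌋₊ + 1 with hK
  have hKr : (K : ℝ) ≤ N / 8 + 1 := by
    rw [hK]
    push_cast
    have h5 : (⌊Real.log N / Real.log θ⌋₊ : ℝ) ≤ Real.log N / Real.log θ :=
      Nat.floor_le (div_nonneg (Real.log_natCast_nonneg N) hlogθ.le)
    have h6 : Real.log N / Real.log θ ≤ N / 8 := by
      rw [div_le_iff₀ hlogθ]
      linarith
    linarith
  have hN16 : 16 ≤ N := by exact_mod_cast hN4
  have h2K : 4 * K ≤ N := by
    have h7 : (4 * K : ℝ) ≤ N := by linarith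
    exact_mod_cast h7
  refine ⟨N, N - 2 * K, by omega, by omega, by omega, ?_, by omega, ?_⟩
  · rw [Nat.cast_sub (by omega)]
    push_cast
    have hN0 : (0 : ℝ) < N := by linarith
    have h8 : (N : ℝ) ^ s * (N : ℝ) ^ (1 - s) = N := by
      rw [← Real.rpow_add hN0]
      norm_num
    have h9 : 0 < (N : ℝ) ^ s := by positivity
    have h10 : (N : ℝ) ^ s * 8 ≤ N := by
      calc (N : ℝ) ^ s * 8 ≤ (N : ℝ) ^ s * (N : ℝ) ^ (1 - s) := by gcongr
        _ = N := h8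
    have h11 : (4 * K : ℝ) ≤ N := by exact_mod_cast h2K
    linarith
  · rw [div_le_iff₀ hl] at hN3
    linarith

theorem dim_tree' (θ ε : ℝ) (hθ : 1 < θ) (hε : 0 < ε) (ξ : ℕ → ℝ) (s : ℝ) (hs : 0 < s) (hs1 : s < 1) :
    ∃ T : Tree, T.s = s ∧ (∀ z, T.lo 0 z = θ) ∧ (∀ z, θ ≤ T.pt z ∧ |T.pt z - θ| < ε) ∧
      ∃ δ : ℝ, 0 < δ ∧ ∀ (z : Om) (n : ℕ), 1 ≤ n → ∀ m : ℤ, δ ≤ |T.pt z ^ n - ξ n - m| := by
  classical
  obtain ⟨l0, hl0, hl0ε⟩ : ∃ l0 : ℝ, 0 < l0 ∧ l0 < ε := ⟨ε / 2, by positivity, by linarith⟩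
  obtain ⟨N, b, hN, hb, hNK, hNs, hNb, hNl⟩ := exists_N θ l0 s hθ hl0 hs1
  have hN0 : (0 : ℝ) < N := by exact_mod_cast (by omega : 0 < N)
  have hsel : ∀ (n : ℕ) (a : ℝ), ∃ g : ℕ → ℕ, (∀ i < b, g i < N) ∧ (∀ i j, i < b → j < b → g i = g j → i = j) ∧
      (θ ≤ a → ∀ i < b, Good N (1 / (8 * (N : ℝ) ^ 2)) ξ (ell N l0 n) a (g i)) := by
    intro n a
    by_cases ha : θ ≤ a
    · obtain ⟨g, h1, h2, h3⟩ := exists_select hN ξ (ell_pos hN hl0 n) hθ ha b hNK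
      exact ⟨g, h1, h2, fun _ => h3⟩
    · exact ⟨id, fun i hi => by simp only [id]; omega, fun i j _ _ h => h, fun h => absurd h ha⟩
  choose G hG hinj hgood using hsel
  set T : Tree := gridTree (a0 := θ) (G := G) hN hl0 hb (fun n a k hk => hG n a k hk)
    (fun n a k k' hk hk' h => hinj n a k k' hk hk' h) s hs hs1.le hNs hNb with hT
  have hTlo : ∀ n z, T.lo n z = loR N b l0 θ G n z := fun n z => rfl
  have hThi : ∀ n z, T.hi n z = loR N b l0 θ G n z + ell N l0 n := fun n z => rfl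
  have hge : ∀ n z, θ ≤ T.lo n z := by
    intro n z
    have := T.lo_mono z (Nat.zero_le n)
    exact this
  have hpt : ∀ z, θ ≤ T.pt z ∧ T.pt z ≤ θ + l0 := by
    intro z
    refine ⟨T.lo_le_pt 0 z, ?_⟩
    have h1 := T.pt_le_hi 0 z
    rw [hThi] at h1
    simpa [loR, ell] using h1
  refine ⟨T, rfl, fun z => rfl, fun z => ⟨(hpt z).1, ?_⟩, 1 / (8 * (N : ℝ) ^ 2), by positivity, ?_⟩
  · rw [abs_lt]
    constructor <;> linarith [(hpt z).1, (hpt z).2]
  intro z k hk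
  -- the level at which the exponent `k` is treated
  have hex : ∃ n, (k : ℝ) * T.lo n z ^ (k - 1) ≤ 1 / (4 * ell N l0 n) := by
    have h1 : Tendsto (fun n => 4 * ell N l0 n * (k * (θ + l0) ^ (k - 1))) atTop (𝓝 (4 * 0 * (k * (θ + l0) ^ (k - 1)))) :=
      ((ell_tendsto hN l0).const_mul 4).mul_const _
    rw [mul_zero, zero_mul] at h1
    obtain ⟨n, hn⟩ := (h1.eventually_le_const zero_lt_one).exists
    refine ⟨n, ?_⟩
    have h2 := ell_pos hN hl0 n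
    rw [le_div_iff₀ (by positivity)]
    have h3 : T.lo n z ≤ θ + l0 := (T.lo_le_pt n z).trans (hpt z).2
    have h4 : 0 ≤ T.lo n z := by linarith [hge n z]
    calc (k : ℝ) * T.lo n z ^ (k - 1) * (4 * ell N l0 n) ≤ k * (θ + l0) ^ (k - 1) * (4 * ell N l0 n) := by gcongr
      _ = 4 * ell N l0 n * (k * (θ + l0) ^ (k - 1)) := by ring
      _ ≤ 1 := hn
  obtain ⟨n, hn, hmin⟩ : ∃ n, (k : ℝ) * T.lo n z ^ (k - 1) ≤ 1 / (4 * ell N l0 n) ∧
      ∀ m < n, ¬ (k : ℝ) * T.lo m z ^ (k - 1) ≤ 1 / (4 * ell N l0 m) :=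
    ⟨Nat.find hex, Nat.find_spec hex, fun m hm => Nat.find_min hex hm⟩
  have hln := ell_pos hN hl0 n
  have hact : Act N (ell N l0 n) (T.lo n z) k := by
    refine ⟨hk, ?_, hn⟩
    rcases Nat.eq_zero_or_pos n with h0 | h0
    · subst h0
      have h1 : 1 ≤ (k : ℝ) * T.lo 0 z ^ (k - 1) := by
        have h2 : (1 : ℝ) ≤ k := by exact_mod_cast hk
        have h3 : 1 ≤ T.lo 0 z ^ (k - 1) := one_le_pow₀ (by linarith [hge 0 z])
        nlinarith
      have h4 : 1 / (4 * N * ell N l0 0) < 1 := by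
        rw [div_lt_one (by positivity)]
        simpa [ell] using hNl
      linarith
    · obtain ⟨m, rfl⟩ : ∃ m, n = m + 1 := ⟨n - 1, by omega⟩
      have h1 := hmin m (by omega)
      push Not at h1
      have h2 : 1 / (4 * N * ell N l0 (m + 1)) = 1 / (4 * ell N l0 m) := by
        rw [← ell_succ hN l0 m]
        ring_nf
      rw [h2]
      refine h1.trans_le ?_
      have h3 := T.lo_le m z
      have h4 := hge m z
      have h5 : 0 ≤ T.lo m z := by linarith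
      gcongr
  have hmod : z n % b < b := Nat.mod_lt _ (by omega)
  have hg := hgood n (T.lo n z) (hge n z) (z n % b) hmod k hact (T.pt z)
  have h1 := T.lo_le_pt (n + 1) z
  have h2 := T.pt_le_hi (n + 1) z
  have e1 : T.lo (n + 1) z = T.lo n z + (G n (T.lo n z) (z n % b) : ℕ) * ell N l0 (n + 1) := rfl
  have e2 : T.hi (n + 1) z = T.lo (n + 1) z + ell N l0 (n + 1) := rfl
  have e3 : ell N l0 (n + 1) = ell N l0 n / N := by
    rw [← ell_succ hN l0 n]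
    field_simp
  rw [e1, e3] at h1
  rw [e2, e1, e3] at h2
  exact hg h1 (by linarith)

theorem dim_tree (θ ε : ℝ) (hθ : 1 < θ) (hε : 0 < ε) (ξ : ℕ → ℝ) (s : ℝ) (hs : 0 < s) (hs1 : s < 1) :
    ∃ T : Tree, T.s = s ∧ (∀ z, θ ≤ T.pt z ∧ |T.pt z - θ| < ε) ∧
      ∃ δ : ℝ, 0 < δ ∧ ∀ (z : Om) (n : ℕ), 1 ≤ n → ∀ m : ℤ, δ ≤ |T.pt z ^ n - ξ n - m| := by
  obtain ⟨T, h1, -, h2⟩ := dim_tree' θ ε hθ hε ξ s hs hs1
  exact ⟨T, h1, h2⟩

end Pool.Agent.Helper32.DO
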