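import Pool.Agent.Helper32.DO.Pot2

/-!
# Trees of dimension near one which avoid all targets for countably many polynomials at once
-/

set_option autoImplicit false

namespace Pool.Agent.Helper32.DO

open Set Filter Topology Polynomial Pool.Agent.Helper46.TC
open scoped ENNReal

/-- Away from its roots a polynomial is bounded from below. -/
theorem exists_lower (p : ℝ[X]) (hp : p ≠ 0) (A B r : ℝ) (hr : 0 < r) : ∃ c : ℝ, 0 < c ∧ ∀ x, A ≤ x → x ≤ B →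
    (∀ ρ ∈ p.roots.toFinset, r ≤ |x - ρ|) → c ≤ |p.eval x| := by
  set S : Set ℝ := Icc A B ∩ {x | ∀ ρ ∈ p.roots.toFinset, r ≤ |x - ρ|} with hS
  have hclosed : IsClosed {x : ℝ | ∀ ρ ∈ p.roots.toFinset, r ≤ |x - ρ|} := by
    have h : {x : ℝ | ∀ ρ ∈ p.roots.toFinset, r ≤ |x - ρ|} =
        ⋂ ρ ∈ p.roots.toFinset, {x : ℝ | r ≤ |x - ρ|} := by
      ext x
      simp only [Set.mem_ofPred_eq, mem_iInter]
    rw [h]
    exact isClosed_biInter fun ρ _ =>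
      isClosed_le continuous_const ((continuous_id.sub continuous_const).abs)
  have hcomp : IsCompact S := isCompact_Icc.inter_right hclosed
  rcases S.eq_empty_or_nonempty with hSe | hne
  · refine ⟨1, one_pos, fun x h1 h2 h3 => ?_⟩
    have : x ∈ S := ⟨⟨h1, h2⟩, h3⟩
    rw [hSe] at this
    exact absurd this (Set.notMem_empty x)
  · obtain ⟨y, hy, hmin⟩ := hcomp.exists_isMinOn hne (f := fun x => |p.eval x|) p.continuous.abs.continuousOn
    refine ⟨|p.eval y|, ?_, fun x h1 h2 h3 => hmin (show x ∈ S from ⟨⟨h1, h2⟩, h3⟩)⟩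
    rw [abs_pos]
    intro h0
    have hroot : y ∈ p.roots.toFinset := by
      rw [Multiset.mem_toFinset, mem_roots hp]
      exact h0
    have := hy.2 y hroot
    rw [sub_self, abs_zero] at this
    linarith

theorem sum_half (m : ℕ) : ∑ i ∈ Finset.range m, (1 / 2 : ℝ) ^ (i + 1) ≤ 1 := by
  have h : ∑ i ∈ Finset.range m, (1 / 2 : ℝ) ^ (i + 1) = 1 - (1 / 2) ^ m := by
    induction m with
    | zero => simp
    | succ m ih =>
      rw [Finset.sum_range_succ, ih, pow_succ]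
      ring
  rw [h]
  have : (0 : ℝ) ≤ (1 / 2) ^ m := by positivity
  linarith

theorem tsum_half (C : ℝ) (hC : 0 ≤ C) : ∑' i : ℕ, ENNReal.ofReal (C * (1 / 2 : ℝ) ^ (i + 1)) ≤ ENNReal.ofReal C := by
  refine ENNReal.tsum_le_of_sum_range_le fun m => ?_
  rw [← ENNReal.ofReal_sum_of_nonneg (fun i _ => by positivity), ← Finset.mul_sum]
  apply ENNReal.ofReal_le_ofReal
  have := sum_half m
  nlinarith

/-- A cell with a small potential has no root in its neighbourhood. -/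
theorem region {N M : ℕ} {p : ℕ → ℝ[X]} {ξ : ℕ → ℕ → ℝ} {Z : ℕ → Finset ℝ} {v w : ℕ → ℝ} {k0 n0 : ℕ → ℕ} {n : ℕ}
    {a l : ℝ} (hP : Phi N M p ξ Z v w k0 n0 n a l ≤ 1) (i : ℕ) (hv : 1 < v i * (M : ℝ) ^ n) {x : ℝ}
    (hx : a ≤ x) (hx' : x ≤ a + l) : ∀ ρ ∈ Z i, l ≤ |x - ρ| := by
  classical
  intro ρ hρ
  by_contra hc
  push Not at hc
  rw [abs_lt] at hc
  have h1 : ENNReal.ofReal (v i * (M : ℝ) ^ n) ≤ Zer (Z i) (v i) M n a l := by
    unfold Zer
    refine le_trans (le_of_eq ?_) (Finset.single_le_sum (fun _ _ => zero_le) hρ)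
    rw [if_pos]
    constructor <;> linarith
  have h2 : Zer (Z i) (v i) M n a l ≤ Phi N M p ξ Z v w k0 n0 n a l :=
    le_self_add.trans (ENNReal.le_tsum i)
  have h3 := (h1.trans h2).trans hP
  rw [← ENNReal.ofReal_one, ENNReal.ofReal_le_ofReal_iff zero_le_one] at h3
  linarith

theorem ell_anti {N : ℕ} (hN : 2 ≤ N) {l0 : ℝ} (hl : 0 < l0) {m n : ℕ} (h : m ≤ n) : ell N l0 n ≤ ell N l0 m := by
  unfold ell
  have h1 : (1 : ℝ) ≤ N := by exact_mod_cast (by omega : 1 ≤ N)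
  apply div_le_div_of_nonneg_left hl.le (by positivity)
  exact pow_le_pow_right₀ h1 h

theorem dim_tree_poly (θ ε : ℝ) (hθ : 1 < θ) (hε : 0 < ε) (P : ℕ → ℝ[X]) (hP : ∀ i, P i ≠ 0) (ξ : ℕ → ℕ → ℝ)
    (s : ℝ) (hs : 0 < s) (hs1 : s < 1) :
    ∃ T : Tree, T.s = s ∧ (∀ z, T.lo 0 z = θ) ∧ (∀ z, θ ≤ T.pt z ∧ |T.pt z - θ| < ε) ∧
      ∀ i, ∃ δ : ℝ, 0 < δ ∧ ∃ n0 : ℕ, ∀ (z : Om) (n : ℕ), n0 ≤ n → ∀ m : ℤ,
        δ ≤ |(P i).eval (T.pt z) * T.pt z ^ n - ξ i n - m| := by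
  classical
  obtain ⟨l0, hl0, hl0ε, hl01⟩ : ∃ l0 : ℝ, 0 < l0 ∧ l0 < ε ∧ l0 ≤ 1 :=
    ⟨min (ε / 2) 1, lt_min (by positivity) one_pos, lt_of_le_of_lt (min_le_left _ _) (by linarith), min_le_right _ _⟩
  -- the number of subcells
  obtain ⟨M, N, b, hM, hNM, hN2b, hNs⟩ : ∃ M N b : ℕ, 32 ≤ M ∧ N = M * M ∧ N = 2 * b ∧ 4 * (N : ℝ) ^ s ≤ b := by
    obtain ⟨x0, hx0⟩ := (((tendsto_rpow_atTop (by linarith : 0 < 1 - s)).eventually_ge_atTop 8).and
      (eventually_ge_atTop (0 : ℝ))).exists_forall_of_atTop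
    set Q := max 16 ⌈x0⌉₊ with hQ
    have hQ16 : 16 ≤ Q := le_max_left _ _
    refine ⟨2 * Q, (2 * Q) * (2 * Q), 2 * Q * Q, by omega, rfl, by ring, ?_⟩
    have hQ0 : x0 ≤ Q := (Nat.le_ceil x0).trans (by exact_mod_cast le_max_right _ _)
    have hQr : (16 : ℝ) ≤ Q := by exact_mod_cast hQ16
    have hN0 : x0 ≤ (((2 * Q) * (2 * Q) : ℕ) : ℝ) := by
      push_cast
      nlinarith
    obtain ⟨h8, h9⟩ := hx0 _ hN0
    have hNp : (0 : ℝ) < (((2 * Q) * (2 * Q) : ℕ) : ℝ) := by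
      push_cast
      nlinarith
    have h10 : (((2 * Q) * (2 * Q) : ℕ) : ℝ) ^ s * (((2 * Q) * (2 * Q) : ℕ) : ℝ) ^ (1 - s) =
        (((2 * Q) * (2 * Q) : ℕ) : ℝ) := by
      rw [← Real.rpow_add hNp]
      norm_num
    have h11 : 0 < (((2 * Q) * (2 * Q) : ℕ) : ℝ) ^ s := by positivity
    have h12 : (((2 * Q) * (2 * Q) : ℕ) : ℝ) ^ s * 8 ≤ (((2 * Q) * (2 * Q) : ℕ) : ℝ) := by
      calc (((2 * Q) * (2 * Q) : ℕ) : ℝ) ^ s * 8 ≤
            (((2 * Q) * (2 * Q) : ℕ) : ℝ) ^ s * (((2 * Q) * (2 * Q) : ℕ) : ℝ) ^ (1 - s) := by gcongr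
        _ = _ := h10
    push_cast at h12 ⊢
    linarith
  have hM0 : (32 : ℝ) ≤ M := by exact_mod_cast hM
  have hNMr : (N : ℝ) = M * M := by rw [hNM]; push_cast; ring
  have hN1 : (1024 : ℝ) ≤ N := by nlinarith
  have hN0 : (0 : ℝ) < N := by linarith
  have hN2 : 2 ≤ N := by
    have : (2 : ℝ) ≤ N := by linarith
    exact_mod_cast this
  -- the weights
  obtain ⟨K, hK⟩ : ∃ K : ℕ, K = ⌊Real.log (2 * N) / Real.log θ⌋₊ + 1 := ⟨_, rfl⟩
  have hK1 : (1 : ℝ) ≤ K := by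
    rw [hK]
    push_cast
    linarith [Nat.cast_nonneg (α := ℝ) ⌊Real.log (2 * N) / Real.log θ⌋₊]
  obtain ⟨w, hwdef⟩ : ∃ w : ℕ → ℝ, ∀ i, w i = (1 / 2 : ℝ) ^ (i + 1) / (16 * M * K) := ⟨_, fun i => rfl⟩
  have hw : ∀ i, 0 < w i := fun i => by rw [hwdef]; positivity
  have hw1 : ∀ i, w i ≤ 1 := by
    intro i
    rw [hwdef, div_le_one (by positivity)]
    have h1 : (1 / 2 : ℝ) ^ (i + 1) ≤ 1 := pow_le_one₀ (by norm_num) (by norm_num)
    nlinarith
  have hws : ∑' i, ENNReal.ofReal (((⌊Real.log (2 * N) / Real.log θ⌋₊ + 1 : ℕ) : ℝ) * (N * (2 * M * w i))) ≤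
      ENNReal.ofReal (N / 8) := by
    refine le_trans (le_of_eq ?_) (tsum_half (N / 8) (by positivity))
    refine tsum_congr fun i => ?_
    congr 1
    rw [← hK, hwdef]
    field_simp
    norm_num
  obtain ⟨Z, hZ⟩ : ∃ Z : ℕ → Finset ℝ, ∀ i, Z i = (P i).roots.toFinset := ⟨_, fun i => rfl⟩
  obtain ⟨v, hvdef⟩ : ∃ v : ℕ → ℝ, ∀ i, v i = (1 / 2 : ℝ) ^ (i + 1) / ((Z i).card + 1) := ⟨_, fun i => rfl⟩
  have hv : ∀ i, 0 < v i := fun i => by rw [hvdef]; positivity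
  -- the levels and constants of the polynomials
  have hex1 : ∀ i, ∃ m : ℕ, 1 < v i * (M : ℝ) ^ m := by
    intro i
    obtain ⟨m, hm⟩ := pow_unbounded_of_one_lt (1 / v i) (by linarith : (1 : ℝ) < M)
    refine ⟨m, ?_⟩
    rwa [div_lt_iff₀ (hv i), mul_comm] at hm
  choose ml hml using hex1
  have hex2 : ∀ i, ∃ c : ℝ, 0 < c ∧ ∀ x, θ ≤ x → x ≤ θ + 1 →
      (∀ ρ ∈ Z i, ell N l0 (ml i) ≤ |x - ρ|) → c ≤ |(P i).eval x| := by
    intro i
    rw [hZ]
    exact exists_lower (P i) (hP i) θ (θ + 1) _ (ell_pos hN2 hl0 _)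
  choose c hc0 hc using hex2
  have hex3 : ∀ i, ∃ L : ℝ, 0 ≤ L ∧ ∀ x y, θ ≤ x → x ≤ θ + 1 → θ ≤ y → y ≤ θ + 1 →
      |(P i).eval x - (P i).eval y| ≤ L * |x - y| := fun i => exists_lip (P i) θ (θ + 1)
  choose L hL0 hL using hex3
  have hex4 : ∀ i, ∃ n : ℕ, ml i ≤ n ∧ L i * ell N l0 n ≤ c i / 4 := by
    intro i
    have h1 : Tendsto (fun n => L i * ell N l0 n) atTop (𝓝 (L i * 0)) := (ell_tendsto hN2 l0).const_mul _
    rw [mul_zero] at h1
    obtain ⟨n, hn1, hn2⟩ := ((h1.eventually_le_const (by have := hc0 i; positivity : 0 < c i / 4)).and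
      (eventually_ge_atTop (ml i))).exists
    exact ⟨n, hn2, hn1⟩
  choose nl hnl1 hnl2 using hex4
  have hex5 : ∀ i, ∃ k : ℕ, 1 ≤ k ∧ ∀ k', k ≤ k' → 8 * L i * (θ + 1) ≤ k' * c i ∧ 4 ≤ c i * θ ^ (k' - 1) ∧
      1 / 4 < c i * θ ^ (k' - 1) * ell N l0 (nl i) := by
    intro i
    have hc0i := hc0 i
    have hlp := ell_pos hN2 hl0 (nl i)
    obtain ⟨k1, hk1⟩ := exists_nat_ge (8 * L i * (θ + 1) / c i)
    obtain ⟨k2, hk2⟩ := pow_unbounded_of_one_lt (4 / c i) hθ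
    obtain ⟨k3, hk3⟩ := pow_unbounded_of_one_lt (1 / (4 * (c i * ell N l0 (nl i)))) hθ
    refine ⟨k1 + k2 + k3 + 1, by omega, fun k hk => ⟨?_, ?_, ?_⟩⟩
    · rw [div_le_iff₀ hc0i] at hk1
      refine hk1.trans ?_
      gcongr
      omega
    · rw [div_lt_iff₀ hc0i] at hk2
      have h1 : θ ^ k2 ≤ θ ^ (k - 1) := pow_le_pow_right₀ hθ.le (by omega)
      nlinarith
    · rw [div_lt_iff₀ (by positivity)] at hk3
      have h1 : θ ^ k3 ≤ θ ^ (k - 1) := pow_le_pow_right₀ hθ.le (by omega)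
      have h2 : θ ^ k3 * (c i * ell N l0 (nl i)) ≤ θ ^ (k - 1) * (c i * ell N l0 (nl i)) := by gcongr
      linarith
  choose kl hkl1 hkl using hex5
  -- the invariant
  obtain ⟨Inv, hInv⟩ : ∃ Inv : ℕ → ℝ → Prop, ∀ n a, Inv n a ↔ (Phi N M P ξ Z v w kl nl n a (ell N l0 n) ≤ 1 ∧ θ ≤ a ∧
      a + ell N l0 n ≤ θ + l0 ∧ ∀ i, ml i ≤ n → ∀ x, a ≤ x → x ≤ a + ell N l0 n → c i ≤ |(P i).eval x|) :=
    ⟨_, fun n a => Iff.rfl⟩
  have hregion : ∀ i a, Phi N M P ξ Z v w kl nl (ml i) a (ell N l0 (ml i)) ≤ 1 → θ ≤ a →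
      a + ell N l0 (ml i) ≤ θ + l0 → ∀ x, a ≤ x → x ≤ a + ell N l0 (ml i) → c i ≤ |(P i).eval x| := by
    intro i a h1 h2 h3 x hx hx'
    exact hc i x (h2.trans hx) (by linarith) (region h1 i (hml i) hx hx')
  have hReg : ∀ i n a, nl i ≤ n → Inv n a → ∀ k, kl i ≤ k → Reg (P i) θ (c i) (L i) k a (ell N l0 n) := by
    intro i n a hn ha k hk
    rw [hInv] at ha
    obtain ⟨h1, h2, h3, h4⟩ := ha
    obtain ⟨g1, g2, g3⟩ := hkl i k hk
    exact {
      hθ := hθ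
      ha := h2
      hal := by linarith
      hl := ell_pos hN2 hl0 n
      hc := hc0 i
      hL := hL0 i
      hp := h4 i ((hnl1 i).trans hn)
      lip := hL i
      hLl := (mul_le_mul_of_nonneg_left (ell_anti hN2 hl0 hn) (hL0 i)).trans (hnl2 i)
      hk1 := (hkl1 i).trans hk
      hk2 := g1
      hk3 := g2 }
  have hBirth : ∀ i n a, nl i = n → Inv n a → ∀ k, kl i ≤ k → 1 / 4 < FF (P i) k a * ell N l0 n := by
    intro i n a hn ha k hk
    have hr := hReg i n a hn.le ha k hk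
    obtain ⟨g1, g2, g3⟩ := hkl i k hk
    rw [hn] at g3
    refine g3.trans_le ?_
    have hlp := ell_pos hN2 hl0 n
    gcongr
    unfold FF
    have h4 := hr.hp a le_rfl (by linarith)
    have h5 : θ ^ (k - 1) ≤ a ^ (k - 1) := by
      have := hr.ha
      gcongr
    have h6 : (1 : ℝ) ≤ k := by exact_mod_cast hr.hk1
    have h7 := hc0 i
    calc c i * θ ^ (k - 1) ≤ |(P i).eval a| * a ^ (k - 1) := by gcongr
      _ = 1 * |(P i).eval a| * a ^ (k - 1) := by ring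
      _ ≤ k * |(P i).eval a| * a ^ (k - 1) := by
          have := hr.a_pos
          gcongr
  have hInv0 : Inv 0 θ := by
    have e0 : ell N l0 0 = l0 := by simp [ell]
    have hPhi0 : Phi N M P ξ Z v w kl nl 0 θ (ell N l0 0) ≤ 1 := by
      unfold Phi
      have h1 : ∀ i, Zer (Z i) (v i) M 0 θ (ell N l0 0) + Psi N (P i) (ξ i) (w i) (kl i) (nl i) 0 θ (ell N l0 0) ≤
          ENNReal.ofReal (1 * (1 / 2 : ℝ) ^ (i + 1)) := by
        intro i
        have h2 : Psi N (P i) (ξ i) (w i) (kl i) (nl i) 0 θ (ell N l0 0) = 0 := by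
          unfold Psi
          rw [if_neg (Nat.not_lt_zero _)]
        rw [h2, add_zero]
        unfold Zer
        calc (∑ ρ ∈ Z i, if θ - ell N l0 0 ≤ ρ ∧ ρ ≤ θ + 2 * ell N l0 0 then ENNReal.ofReal (v i * (M : ℝ) ^ 0) else 0)
            ≤ ∑ ρ ∈ Z i, ENNReal.ofReal (v i) := by
              refine Finset.sum_le_sum fun ρ _ => ?_
              split_ifs
              · rw [pow_zero, mul_one]
              · exact zero_le
          _ = ENNReal.ofReal ((Z i).card * v i) := by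
              rw [Finset.sum_const, nsmul_eq_mul, ENNReal.ofReal_mul (Nat.cast_nonneg _), ENNReal.ofReal_natCast]
          _ ≤ _ := by
              apply ENNReal.ofReal_le_ofReal
              rw [hvdef, one_mul, mul_div_assoc', div_le_iff₀ (by positivity)]
              have : (0 : ℝ) < (1 / 2 : ℝ) ^ (i + 1) := by positivity
              nlinarith
      refine (ENNReal.tsum_le_tsum h1).trans ((tsum_half 1 zero_le_one).trans ?_)
      rw [ENNReal.ofReal_one]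
    rw [hInv]
    refine ⟨hPhi0, le_rfl, by rw [e0], fun i hi x hx hx' => ?_⟩
    have hm0 : ml i = 0 := by omega
    have := hregion i θ
    rw [hm0] at this
    exact this hPhi0 le_rfl (by rw [e0]) x hx hx'
  have hstep : ∀ n a, Inv n a → ∃ A : Finset ℕ, b ≤ A.card ∧
      ∀ j ∈ A, j < N ∧ Inv (n + 1) (a + j * ell N l0 (n + 1)) := by
    intro n a ha
    have ha' := (hInv n a).1 ha
    obtain ⟨h1, h2, h3, h4⟩ := ha'
    have hlp := ell_pos hN2 hl0 n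
    have elle : ell N l0 (n + 1) = ell N l0 n / N := by
      rw [← ell_succ hN2 l0 n]
      field_simp
    obtain ⟨A, hA1, hA2⟩ := exists_good (c := c) (L := L) hNM hM (fun i => (hv i).le) hw hw1 hθ h2 hlp (n := n) hkl1
      (fun i hi k hk => hReg i n a hi ha k hk) (fun i hi k hk => hBirth i n a hi ha k hk) hws h1
    refine ⟨A, by omega, fun j hj => ?_⟩
    obtain ⟨hjN, hPj⟩ := hA2 j hj
    obtain ⟨s1, s2⟩ := child_sub (a := a) (by omega : 0 < N) hlp hjN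
    refine ⟨hjN, ?_⟩
    rw [hInv, elle]
    refine ⟨hPj, h2.trans s1, s2.trans h3, fun i hi x hx hx' => ?_⟩
    rcases Nat.lt_or_ge n (ml i) with hlt | hge
    · have hm : ml i = n + 1 := by omega
      have := hregion i (a + j * (ell N l0 n / N))
      rw [hm, elle] at this
      exact this hPj (h2.trans s1) (s2.trans h3) x hx hx'
    · exact h4 i hge x (s1.trans hx) (hx'.trans s2)
  obtain ⟨T, hTs, hT0, hThi, hTInv⟩ := inv_tree hN2 hl0 (by omega : 1 ≤ b) Inv hInv0 hstep s hs hs1.le hNs (by omega)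
  have hpt : ∀ z, θ ≤ T.pt z ∧ T.pt z ≤ θ + l0 := by
    intro z
    have h1 := T.lo_le_pt 0 z
    have h2 := T.pt_le_hi 0 z
    rw [hThi, hT0] at h2
    rw [hT0] at h1
    refine ⟨h1, ?_⟩
    simpa [ell] using h2
  refine ⟨T, hTs, hT0, fun z => ⟨(hpt z).1, ?_⟩, fun i => ?_⟩
  · rw [abs_lt]
    constructor <;> linarith [(hpt z).1, (hpt z).2]
  refine ⟨w i ^ 2 / (64 * N), by have := hw i; positivity, kl i, fun z k hk m => ?_⟩
  by_contra hcon
  push Not at hcon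
  have hwi := hw i
  have hw2 : 0 < w i ^ 2 := by positivity
  have hw2' : w i ^ 2 ≤ 1 := by have := hw1 i; nlinarith
  obtain ⟨u, hu⟩ : ∃ u : ℕ → ℝ, ∀ n, u n = FF (P i) k (T.lo n z) * ell N l0 n := ⟨_, fun n => rfl⟩
  have hlo : ∀ n, θ ≤ T.lo n z ∧ T.lo n z + ell N l0 n ≤ θ + l0 := fun n =>
    ⟨((hInv _ _).1 (hTInv n z)).2.1, ((hInv _ _).1 (hTInv n z)).2.2.1⟩
  have hex : ∃ n, nl i ≤ n ∧ u n < w i ^ 2 / 4 := by
    obtain ⟨C, hC⟩ := (isCompact_Icc (a := θ) (b := θ + 1)).exists_bound_of_continuousOn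
      (f := fun x => FF (P i) k x) (by unfold FF; fun_prop)
    have h1 : Tendsto (fun n => C * ell N l0 n) atTop (𝓝 (C * 0)) := (ell_tendsto hN2 l0).const_mul _
    rw [mul_zero] at h1
    obtain ⟨n, hn1, hn2⟩ := ((h1.eventually_lt_const (by positivity : 0 < w i ^ 2 / 4)).and
      (eventually_ge_atTop (nl i))).exists
    refine ⟨n, hn2, lt_of_le_of_lt ?_ hn1⟩
    rw [hu]
    have hlp := ell_pos hN2 hl0 n
    gcongr
    refine (le_abs_self _).trans (hC _ ⟨(hlo n).1, ?_⟩)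
    linarith [(hlo n).2]
  obtain ⟨n, ⟨hn1, hn2⟩, hmin⟩ : ∃ n, (nl i ≤ n ∧ u n < w i ^ 2 / 4) ∧ ∀ m < n, ¬ (nl i ≤ m ∧ u m < w i ^ 2 / 4) :=
    ⟨Nat.find hex, Nat.find_spec hex, fun m hm => Nat.find_min hex hm⟩
  have hne : nl i ≠ n := by
    intro h
    have := hBirth i n (T.lo n z) h (hTInv n z) k hk
    rw [← hu] at this
    linarith
  obtain ⟨n', rfl⟩ : ∃ n', n = n' + 1 := ⟨n - 1, by omega⟩
  have hn' : nl i ≤ n' := by omega
  have hu' : w i ^ 2 / 4 ≤ u n' := by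
    by_contra hc
    push Not at hc
    exact hmin n' (by omega) ⟨hn', hc⟩
  have hr := hReg i n' (T.lo n' z) hn' (hTInv n' z) k hk
  have hlp := ell_pos hN2 hl0 n'
  have hlp1 := ell_pos hN2 hl0 (n' + 1)
  have elle : (N : ℝ) * ell N l0 (n' + 1) = ell N l0 n' := ell_succ hN2 l0 n'
  have hFg := hr.FF_ge (T.lo_le n' z) (by
    have h1 := T.hi_le n' z
    rw [hThi, hThi] at h1
    linarith)
  have hulow : w i ^ 2 / (8 * N) ≤ u (n' + 1) := by
    have h1 : u n' ≤ 2 * N * u (n' + 1) := by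
      rw [hu, hu, ← elle]
      calc FF (P i) k (T.lo n' z) * (N * ell N l0 (n' + 1)) = 2 * N * (FF (P i) k (T.lo n' z) / 2 * ell N l0 (n' + 1)) := by
            ring
        _ ≤ _ := by gcongr
    rw [div_le_iff₀ (by positivity)]
    linarith
  have hup : 0 < u (n' + 1) := lt_of_lt_of_le (by positivity) hulow
  have hHit : Hit (P i) (ξ i) k (w i ^ 2 / (64 * N)) (T.lo (n' + 1) z) (ell N l0 (n' + 1)) := by
    have h1 := T.pt_le_hi (n' + 1) z
    rw [hThi] at h1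
    exact ⟨T.pt z, T.lo_le_pt (n' + 1) z, h1, m, hcon⟩
  have hWW : WW N (P i) (ξ i) (w i) k (T.lo (n' + 1) z) (ell N l0 (n' + 1)) = w i / (2 * √(u (n' + 1))) := by
    unfold WW
    rw [← hu, if_pos ⟨hulow, by linarith, hHit⟩]
  have hbig : 1 < w i / (2 * √(u (n' + 1))) := by
    have h5 : 0 < √(u (n' + 1)) := Real.sqrt_pos.2 hup
    rw [one_lt_div (by positivity)]
    have h6 : √(u (n' + 1)) < w i / 2 := by
      rw [Real.sqrt_lt' (by positivity)]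
      calc u (n' + 1) < w i ^ 2 / 4 := hn2
        _ = (w i / 2) ^ 2 := by ring
    linarith
  have hPsi : ENNReal.ofReal (w i / (2 * √(u (n' + 1)))) ≤
      Psi N (P i) (ξ i) (w i) (kl i) (nl i) (n' + 1) (T.lo (n' + 1) z) (ell N l0 (n' + 1)) := by
    unfold Psi
    rw [if_pos (by omega)]
    refine le_trans (le_of_eq ?_) (ENNReal.le_tsum k)
    rw [if_pos hk, hWW]
  have hPhi : Psi N (P i) (ξ i) (w i) (kl i) (nl i) (n' + 1) (T.lo (n' + 1) z) (ell N l0 (n' + 1)) ≤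
      Phi N M P ξ Z v w kl nl (n' + 1) (T.lo (n' + 1) z) (ell N l0 (n' + 1)) := by
    unfold Phi
    exact le_add_self.trans (ENNReal.le_tsum i)
  have h3 := (hPsi.trans hPhi).trans ((hInv _ _).1 (hTInv (n' + 1) z)).1
  rw [← ENNReal.ofReal_one, ENNReal.ofReal_le_ofReal_iff zero_le_one] at h3
  linarith

end Pool.Agent.Helper32.DO
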