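import Pool.Agent.Helper32.FS.Decay

/-!
# Trees of cells of an `N`-adic grid

Every cell of level `n` has the length `l0 / N^n`; `b` of its `N` subcells are selected, by an arbitrary rule `G`
depending on the level and on the left end of the cell.
-/

set_option autoImplicit false

namespace Pool.Agent.Helper32.DO

open MeasureTheory Set Filter Topology Pool.Agent.Helper46.TC

/-- Length of the cells of level `n`. -/
noncomputable def ell (N : ℕ) (l0 : ℝ) (n : ℕ) : ℝ := l0 / (N : ℝ) ^ n

/-- Left end of the cell of level `n`. -/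
noncomputable def loR (N b : ℕ) (l0 a0 : ℝ) (G : ℕ → ℝ → ℕ → ℕ) : ℕ → Om → ℝ
  | 0, _ => a0
  | n + 1, x => loR N b l0 a0 G n x + (G n (loR N b l0 a0 G n x) (x n % b) : ℕ) * ell N l0 (n + 1)

theorem ell_pos {N : ℕ} (hN : 2 ≤ N) {l0 : ℝ} (hl : 0 < l0) (n : ℕ) : 0 < ell N l0 n := by
  unfold ell
  have : (0 : ℝ) < N := by exact_mod_cast (by omega : 0 < N)
  positivity

theorem ell_succ {N : ℕ} (hN : 2 ≤ N) (l0 : ℝ) (n : ℕ) : (N : ℝ) * ell N l0 (n + 1) = ell N l0 n := by
  unfold ell
  have : (0 : ℝ) < N := by exact_mod_cast (by omega : 0 < N)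
  rw [pow_succ]
  field_simp

theorem ell_tendsto {N : ℕ} (hN : 2 ≤ N) (l0 : ℝ) : Tendsto (ell N l0) atTop (𝓝 0) := by
  have h1 : (1 : ℝ) < N := by exact_mod_cast (by omega : 1 < N)
  exact tendsto_const_nhds.div_atTop (tendsto_pow_atTop_atTop_of_one_lt h1)

section

variable {N b : ℕ} {l0 a0 : ℝ} {G : ℕ → ℝ → ℕ → ℕ}

theorem loR_dep (n : ℕ) (x y : Om) (h : y ∈ cyl x n) : loR N b l0 a0 G n y = loR N b l0 a0 G n x := by
  induction n with
  | zero => rfl
  | succ n ih =>
    have h1 := ih (cyl_anti (Nat.le_succ n) h)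
    have h2 : y n = x n := h n (Nat.lt_succ_self n)
    simp only [loR]
    rw [h1, h2]

theorem loR_le (hN : 2 ≤ N) (hl : 0 < l0) (n : ℕ) (x : Om) :
    loR N b l0 a0 G n x ≤ loR N b l0 a0 G (n + 1) x := by
  have := ell_pos hN hl (n + 1)
  simp only [loR]
  have h : (0 : ℝ) ≤ (G n (loR N b l0 a0 G n x) (x n % b) : ℕ) * ell N l0 (n + 1) := by positivity
  linarith

theorem hiR_le (hN : 2 ≤ N) (hl : 0 < l0) (hb : 1 ≤ b) (hG : ∀ n a k, k < b → G n a k < N) (n : ℕ) (x : Om) :
    loR N b l0 a0 G (n + 1) x + ell N l0 (n + 1) ≤ loR N b l0 a0 G n x + ell N l0 n := by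
  have h0 := ell_pos hN hl (n + 1)
  have h1 := ell_succ hN l0 n
  have h2 : ((G n (loR N b l0 a0 G n x) (x n % b) : ℕ) : ℝ) + 1 ≤ N := by
    exact_mod_cast hG n _ _ (Nat.mod_lt _ (by omega))
  simp only [loR]
  nlinarith

theorem loR_mono (hN : 2 ≤ N) (hl : 0 < l0) (x : Om) : Monotone fun n => loR N b l0 a0 G n x :=
  monotone_nat_of_le_succ fun n => loR_le hN hl n x

theorem hiR_anti (hN : 2 ≤ N) (hl : 0 < l0) (hb : 1 ≤ b) (hG : ∀ n a k, k < b → G n a k < N) (x : Om) :
    Antitone fun n => loR N b l0 a0 G n x + ell N l0 n :=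
  antitone_nat_of_succ_le fun n => hiR_le hN hl hb hG n x

theorem loR_le_hiR (hN : 2 ≤ N) (hl : 0 < l0) (hb : 1 ≤ b) (hG : ∀ n a k, k < b → G n a k < N) (m n : ℕ)
    (x : Om) : loR N b l0 a0 G m x ≤ loR N b l0 a0 G n x + ell N l0 n := by
  have h1 := loR_mono (b := b) (a0 := a0) (G := G) hN hl x (le_max_left m n)
  have h2 := hiR_anti (a0 := a0) hN hl hb hG x (le_max_right m n)
  have h3 := ell_pos hN hl (max m n)
  simp only at h1 h2
  linarith

theorem bddR (hN : 2 ≤ N) (hl : 0 < l0) (hb : 1 ≤ b) (hG : ∀ n a k, k < b → G n a k < N) (x : Om) :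
    BddAbove (range fun n => loR N b l0 a0 G n x) :=
  ⟨loR N b l0 a0 G 0 x + ell N l0 0, by rintro _ ⟨n, rfl⟩; exact loR_le_hiR hN hl hb hG n 0 x⟩

theorem loR_le_pt (hN : 2 ≤ N) (hl : 0 < l0) (hb : 1 ≤ b) (hG : ∀ n a k, k < b → G n a k < N) (n : ℕ)
    (x : Om) : loR N b l0 a0 G n x ≤ ptOf (loR N b l0 a0 G) x := le_ciSup (bddR hN hl hb hG x) n

theorem pt_le_hiR (hN : 2 ≤ N) (hl : 0 < l0) (hb : 1 ≤ b) (hG : ∀ n a k, k < b → G n a k < N) (n : ℕ)
    (x : Om) : ptOf (loR N b l0 a0 G) x ≤ loR N b l0 a0 G n x + ell N l0 n :=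
  ciSup_le fun m => loR_le_hiR hN hl hb hG m n x

theorem decay_grid (hN : 2 ≤ N) (hl : 0 < l0) (hb : 1 ≤ b) (hG : ∀ n a k, k < b → G n a k < N)
    (hinj : ∀ n a k k', k < b → k' < b → G n a k = G n a k' → k = k') (s : ℝ) (hs0 : 0 < s) (hs1 : s ≤ 1)
    (hNs : 4 * (N : ℝ) ^ s ≤ b) (hNb : N ≤ 2 * b) (y r : ℝ) (n : ℕ) (x : Om) (hr : 0 < r) :
    P (fun _ => b) (cyl x n ∩ {z | |ptOf (loR N b l0 a0 G) z - y| < r}) ≤
      ENNReal.ofReal (8 * (r / ell N l0 n) ^ s) * P (fun _ => b) (cyl x n) := by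
  classical
  have hN0 : (0 : ℝ) < N := by exact_mod_cast (by omega : 0 < N)
  have hb0 : (0 : ℝ) < b := by exact_mod_cast hb
  have hlen0 : ∀ n, 0 < ell N l0 n := ell_pos hN hl
  obtain ⟨m, hnm, hmr⟩ : ∃ m, n ≤ m ∧ ell N l0 m ≤ r := by
    have h1 := ((ell_tendsto hN l0).eventually_le_const hr).and (Filter.eventually_ge_atTop n)
    obtain ⟨m, hm⟩ := h1.exists
    exact ⟨m, hm.2, hm.1⟩
  have triv : ∀ n x, ell N l0 n ≤ r → P (fun _ => b) (cyl x n ∩ {z | |ptOf (loR N b l0 a0 G) z - y| < r}) ≤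
      ENNReal.ofReal (8 * (r / ell N l0 n) ^ s) * P (fun _ => b) (cyl x n) := by
    intro n x h
    have h1 : 1 ≤ 8 * (r / ell N l0 n) ^ s := by
      have : 1 ≤ (r / ell N l0 n) ^ s := Real.one_le_rpow (by rw [one_le_div (hlen0 n)]; exact h) hs0.le
      linarith
    calc P (fun _ => b) (cyl x n ∩ {z | |ptOf (loR N b l0 a0 G) z - y| < r}) ≤ P (fun _ => b) (cyl x n) :=
          measure_mono Set.inter_subset_left
      _ = 1 * P (fun _ => b) (cyl x n) := (one_mul _).symm
      _ ≤ _ := by
        gcongr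
        rw [ENNReal.one_le_ofReal]
        exact h1
  obtain ⟨j, rfl⟩ : ∃ j, m = n + j := ⟨m - n, by omega⟩
  clear hnm
  induction j generalizing n x with
  | zero => exact triv n x hmr
  | succ j ih =>
    by_cases hnr : ell N l0 n ≤ r
    · exact triv n x hnr
    push Not at hnr
    set E : Set Om := {z | |ptOf (loR N b l0 a0 G) z - y| < r} with hE
    set H : Finset ℕ := (Finset.range b).filter
      (fun a => (cyl (Function.update x n a) (n + 1) ∩ E).Nonempty) with hH
    have hln := hlen0 n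
    have hln1 := hlen0 (n + 1)
    have hsucc := ell_succ hN l0 n
    set l' := ell N l0 (n + 1) with hl'
    set u := loR N b l0 a0 G n x with hu
    have hHcard : (H.card : ℝ) ≤ 2 * (r / l') + 2 := by
      have hinjH : Set.InjOn (G n u) (H : Set ℕ) := by
        intro k hk k' hk' h
        rw [hH, Finset.mem_coe, Finset.mem_filter, Finset.mem_range] at hk hk'
        exact hinj n u k k' hk.1 hk'.1 h
      have h1 : ((H.image (G n u)).card : ℝ) ≤ 2 * (r / l' + 1 / 2) + 1 := by
        apply FS.card_near ((y - u) / l' - 1 / 2) _ (by positivity)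
        intro a ha
        rw [Finset.mem_image] at ha
        obtain ⟨k, hk, rfl⟩ := ha
        rw [hH, Finset.mem_filter, Finset.mem_range] at hk
        obtain ⟨hkb, z, hz1, hz2⟩ := hk
        have hzk : z n = k := by
          have := hz1 n (by omega)
          simpa using this
        have hzx : z ∈ cyl x n := by
          intro i hi
          have := hz1 i (by omega)
          rwa [Function.update_of_ne (by omega)] at this
        have h1 := loR_le_pt (a0 := a0) hN hl hb hG (n + 1) z
        have h2 := pt_le_hiR (a0 := a0) hN hl hb hG (n + 1) z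
        simp only [loR] at h1 h2
        rw [loR_dep n x z hzx, hzk, Nat.mod_eq_of_lt hkb, ← hu, ← hl'] at h1 h2
        have h4 := abs_lt.mp (show |ptOf (loR N b l0 a0 G) z - y| < r from hz2)
        have e1 : ((G n u k : ℕ) : ℝ) - ((y - u) / l' - 1 / 2) = (u + (G n u k : ℕ) * l' - y) / l' + 1 / 2 := by
          field_simp
          ring
        rw [e1]
        have h5 : (u + (G n u k : ℕ) * l' - y) / l' ≤ r / l' :=
          div_le_div_of_nonneg_right (by linarith) hln1.le
        have h6 : -(r / l' + 1) ≤ (u + (G n u k : ℕ) * l' - y) / l' := by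
          rw [le_div_iff₀ hln1]
          have : -(r / l' + 1) * l' = -r - l' := by field_simp; ring
          rw [this]
          linarith
        rw [abs_le]
        constructor <;> linarith
      rw [Finset.card_image_of_injOn hinjH] at h1
      linarith
    have hsum : P (fun _ => b) (cyl x n ∩ E) ≤ ∑ a ∈ H, P (fun _ => b) (cyl (Function.update x n a) (n + 1) ∩ E) := by
      refine (FS.cyl_children (fun _ => b) (fun _ => hb) x n E).trans (le_of_eq ?_)
      rw [hH, Finset.sum_filter]
      refine Finset.sum_congr rfl fun a _ => ?_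
      split_ifs with h
      · rfl
      · rw [Set.not_nonempty_iff_eq_empty] at h
        rw [h, measure_empty]
    have hchild : ∀ a, P (fun _ => b) (cyl (Function.update x n a) (n + 1)) ≤
        ENNReal.ofReal (1 / b) * P (fun _ => b) (cyl x n) := by
      intro a
      rw [P_cyl_succ, cyl_eq_of_mem (update_mem x n a)]
      gcongr
      refine (unif_singleton_le b hb _).trans (le_of_eq ?_)
      rw [one_div, ENNReal.ofReal_inv_of_pos hb0, ENNReal.ofReal_natCast]
    have hcomb : ∀ K : ℝ, 0 ≤ K → (∀ a ∈ H, P (fun _ => b) (cyl (Function.update x n a) (n + 1) ∩ E) ≤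
        ENNReal.ofReal K * P (fun _ => b) (cyl (Function.update x n a) (n + 1))) →
        H.card * (K * (1 / b)) ≤ 8 * (r / ell N l0 n) ^ s →
        P (fun _ => b) (cyl x n ∩ E) ≤ ENNReal.ofReal (8 * (r / ell N l0 n) ^ s) * P (fun _ => b) (cyl x n) := by
      intro K hK h1 h2
      calc P (fun _ => b) (cyl x n ∩ E) ≤ ∑ a ∈ H, P (fun _ => b) (cyl (Function.update x n a) (n + 1) ∩ E) := hsum
        _ ≤ ∑ a ∈ H, ENNReal.ofReal (K * (1 / b)) * P (fun _ => b) (cyl x n) := by
            refine Finset.sum_le_sum fun a ha => ?_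
            refine (h1 a ha).trans ?_
            rw [ENNReal.ofReal_mul hK, mul_assoc]
            gcongr
            exact hchild a
        _ = ENNReal.ofReal (H.card * (K * (1 / b))) * P (fun _ => b) (cyl x n) := by
            rw [Finset.sum_const, nsmul_eq_mul, ENNReal.ofReal_mul (Nat.cast_nonneg _),
              ENNReal.ofReal_natCast, mul_assoc]
        _ ≤ _ := by gcongr
    have hratio : 0 < r / ell N l0 n := div_pos hr hln
    have hrl : r / l' = N * (r / ell N l0 n) := by
      rw [← hsucc]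
      field_simp
    have hNb' : (N : ℝ) ≤ 2 * b := by exact_mod_cast hNb
    by_cases hnr1 : l' ≤ r
    · refine hcomb 1 zero_le_one (fun a _ => ?_) ?_
      · rw [ENNReal.ofReal_one, one_mul]
        exact measure_mono Set.inter_subset_left
      · rw [one_mul]
        have h1 : 1 ≤ r / l' := by rw [one_le_div hln1]; exact hnr1
        have h2 : (H.card : ℝ) ≤ 4 * (N * (r / ell N l0 n)) := by rw [← hrl]; linarith
        have h3 : r / ell N l0 n ≤ (r / ell N l0 n) ^ s := by
          conv_lhs => rw [← Real.rpow_one (r / ell N l0 n)]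
          exact Real.rpow_le_rpow_of_exponent_ge hratio (by rw [div_le_one hln]; exact hnr.le) hs1
        calc (H.card : ℝ) * (1 / b) ≤ 4 * (N * (r / ell N l0 n)) * (1 / b) := by gcongr
          _ = 4 * (N / b) * (r / ell N l0 n) := by ring
          _ ≤ 4 * 2 * (r / ell N l0 n) := by
              gcongr
              rw [div_le_iff₀ hb0]
              exact hNb'
          _ ≤ 8 * (r / ell N l0 n) ^ s := by linarith
    · push Not at hnr1
      refine hcomb (8 * (r / l') ^ s) (by positivity) (fun a _ => ?_) ?_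
      · exact ih (n + 1) (Function.update x n a) (by rw [show n + 1 + j = n + (j + 1) by ring]; exact hmr)
      · have h1 : (H.card : ℝ) ≤ 4 := by
          have : r / l' < 1 := by rw [div_lt_one hln1]; exact hnr1
          linarith
        have h4 : (r / l') ^ s = (N : ℝ) ^ s * (r / ell N l0 n) ^ s := by
          rw [hrl, Real.mul_rpow hN0.le hratio.le]
        have h5 : 4 * (N : ℝ) ^ s / b ≤ 1 := by
          rw [div_le_one hb0]; exact hNs
        calc (H.card : ℝ) * (8 * (r / l') ^ s * (1 / b))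
            ≤ 4 * (8 * ((N : ℝ) ^ s * (r / ell N l0 n) ^ s) * (1 / b)) := by rw [h4]; gcongr
          _ = 8 * (r / ell N l0 n) ^ s * (4 * (N : ℝ) ^ s / b) := by ring
          _ ≤ 8 * (r / ell N l0 n) ^ s * 1 := by gcongr
          _ = _ := mul_one _

/-- The tree of selected cells. -/
noncomputable def gridTree (hN : 2 ≤ N) (hl : 0 < l0) (hb : 1 ≤ b) (hG : ∀ n a k, k < b → G n a k < N)
    (hinj : ∀ n a k k', k < b → k' < b → G n a k = G n a k' → k = k') (s : ℝ) (hs0 : 0 < s) (hs1 : s ≤ 1)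
    (hNs : 4 * (N : ℝ) ^ s ≤ b) (hNb : N ≤ 2 * b) : Tree where
  b := fun _ => b
  lo := loR N b l0 a0 G
  hi := fun n x => loR N b l0 a0 G n x + ell N l0 n
  dep_lo := loR_dep
  dep_hi := fun n x y h => by simp only [loR_dep n x y h]
  lt := fun n x => by have := ell_pos hN hl n; linarith
  lo_le := loR_le hN hl
  hi_le := hiR_le hN hl hb hG
  tend := fun x => by simpa using ell_tendsto hN l0
  s := s
  C := 8
  ρ := N
  hs := hs0
  hC := by norm_num
  hρ := by exact_mod_cast (by omega : 0 < N)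
  decay := fun y r n x hr => by
    rw [add_sub_cancel_left]
    exact decay_grid hN hl hb hG hinj s hs0 hs1 hNs hNb y r n x hr
  ratio := fun n x => by
    rw [add_sub_cancel_left, add_sub_cancel_left, ← ell_succ hN l0 n]
    have h1 := ell_pos hN hl (n + 1)
    have h2 : (0 : ℝ) ≤ N := Nat.cast_nonneg N
    have h3 := abs_nonneg (Real.log ((N : ℝ) * ell N l0 (n + 1)))
    gcongr
    exact le_mul_of_one_le_right h2 (by linarith)

end

end Pool.Agent.Helper32.DO
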