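import Pool.Agent.Helper32.DO.Grid

/-!
# Trees of cells with an invariant
-/

set_option autoImplicit false

namespace Pool.Agent.Helper32.DO

open MeasureTheory Set Filter Topology Pool.Agent.Helper46.TC

/-- Enumeration of `b` elements of a finite set. -/
theorem exists_enum {b : ℕ} (A : Finset ℕ) (h : b ≤ A.card) :
    ∃ g : ℕ → ℕ, (∀ i < b, g i ∈ A) ∧ (∀ i j, i < b → j < b → g i = g j → i = j) := by
  classical
  refine ⟨fun i => if hi : i < b then A.orderEmbOfCardLe h ⟨i, hi⟩ else 0, ?_, ?_⟩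
  · intro i hi
    simp only [dif_pos hi]
    exact A.orderEmbOfCardLe_mem h ⟨i, hi⟩
  · intro i j hi hj h'
    simp only [dif_pos hi, dif_pos hj] at h'
    have := (A.orderEmbOfCardLe h).injective h'
    exact congrArg Fin.val this

/-- If every cell with the invariant has at least `b` subcells with the invariant, then there is a tree of cells
with the invariant. -/
theorem inv_tree {N b : ℕ} (hN : 2 ≤ N) {l0 θ : ℝ} (hl : 0 < l0) (hb : 1 ≤ b) (Inv : ℕ → ℝ → Prop) (h0 : Inv 0 θ)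
    (hstep : ∀ n a, Inv n a → ∃ A : Finset ℕ, b ≤ A.card ∧ ∀ i ∈ A, i < N ∧ Inv (n + 1) (a + i * ell N l0 (n + 1)))
    (s : ℝ) (hs0 : 0 < s) (hs1 : s ≤ 1) (hNs : 4 * (N : ℝ) ^ s ≤ b) (hNb : N ≤ 2 * b) :
    ∃ T : Tree, T.s = s ∧ (∀ z, T.lo 0 z = θ) ∧ (∀ n z, T.hi n z = T.lo n z + ell N l0 n) ∧
      ∀ n z, Inv n (T.lo n z) := by
  classical
  have hbN : b ≤ N := by
    obtain ⟨A, hA1, hA2⟩ := hstep 0 θ h0
    have h1 : A ⊆ Finset.range N := fun i hi => Finset.mem_range.2 (hA2 i hi).1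
    have h2 := Finset.card_le_card h1
    rw [Finset.card_range] at h2
    omega
  have hsel : ∀ (n : ℕ) (a : ℝ), ∃ g : ℕ → ℕ, (∀ i < b, g i < N) ∧ (∀ i j, i < b → j < b → g i = g j → i = j) ∧
      (Inv n a → ∀ i < b, Inv (n + 1) (a + g i * ell N l0 (n + 1))) := by
    intro n a
    by_cases ha : Inv n a
    · obtain ⟨A, hA1, hA2⟩ := hstep n a ha
      obtain ⟨g, h1, h2⟩ := exists_enum A hA1
      exact ⟨g, fun i hi => (hA2 _ (h1 i hi)).1, h2, fun _ i hi => (hA2 _ (h1 i hi)).2⟩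
    · exact ⟨id, fun i hi => by simp only [id]; omega, fun i j _ _ h => h, fun h => absurd h ha⟩
  choose G hG hinj hgood using hsel
  set T : Tree := gridTree (a0 := θ) (G := G) hN hl hb (fun n a k hk => hG n a k hk)
    (fun n a k k' hk hk' h => hinj n a k k' hk hk' h) s hs0 hs1 hNs hNb with hT
  refine ⟨T, rfl, fun z => rfl, fun n z => rfl, fun n z => ?_⟩
  induction n with
  | zero => exact h0
  | succ n ih =>
    have := hgood n (T.lo n z) ih (z n % b) (Nat.mod_lt _ (by omega))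
    exact this

end Pool.Agent.Helper32.DO
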