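import Pool.Agent.Helper32.DO.Cells

/-!
# Regularity of the functions `P(x) x^k` on short intervals
-/

set_option autoImplicit false

namespace Pool.Agent.Helper32.DO

open Set Filter Topology Polynomial

/-- The function `P(x) x^k`. -/
noncomputable def ff (p : ℝ[X]) (k : ℕ) (x : ℝ) : ℝ := p.eval x * x ^ k

/-- Size of its derivative. -/
noncomputable def FF (p : ℝ[X]) (k : ℕ) (a : ℝ) : ℝ := k * |p.eval a| * a ^ (k - 1)

/-- The hypotheses on the interval `[a, a + l]`. -/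
structure Reg (p : ℝ[X]) (θ c L : ℝ) (k : ℕ) (a l : ℝ) : Prop where
  hθ : 1 < θ
  ha : θ ≤ a
  hal : a + l ≤ θ + 1
  hl : 0 < l
  hc : 0 < c
  hL : 0 ≤ L
  hp : ∀ x, a ≤ x → x ≤ a + l → c ≤ |p.eval x|
  lip : ∀ x y, θ ≤ x → x ≤ θ + 1 → θ ≤ y → y ≤ θ + 1 → |p.eval x - p.eval y| ≤ L * |x - y|
  hLl : L * l ≤ c / 4
  hk1 : 1 ≤ k
  hk2 : 8 * L * (θ + 1) ≤ k * c
  hk3 : 4 ≤ c * θ ^ (k - 1)

/-- Polynomials are Lipschitz on compact intervals. -/
theorem exists_lip (p : ℝ[X]) (A B : ℝ) : ∃ L : ℝ, 0 ≤ L ∧ ∀ x y, A ≤ x → x ≤ B → A ≤ y → y ≤ B →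
    |p.eval x - p.eval y| ≤ L * |x - y| := by
  obtain ⟨L, hL⟩ := (isCompact_Icc (a := A) (b := B)).exists_bound_of_continuousOn
    (f := fun x => p.derivative.eval x) p.derivative.continuous.continuousOn
  refine ⟨max L 0, le_max_right _ _, fun x y hx hx' hy hy' => ?_⟩
  have h := Convex.norm_image_sub_le_of_norm_hasDerivWithin_le (f := fun x => p.eval x)
    (f' := fun x => p.derivative.eval x) (s := Icc A B) (C := max L 0)
    (fun z _ => (p.hasDerivAt z).hasDerivWithinAt) (fun z hz => (hL z hz).trans (le_max_left _ _))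
    (convex_Icc A B) (x := y) (y := x) ⟨hy, hy'⟩ ⟨hx, hx'⟩
  rwa [Real.norm_eq_abs, Real.norm_eq_abs] at h

namespace Reg

variable {p : ℝ[X]} {θ c L : ℝ} {k : ℕ} {a l : ℝ}

theorem a_pos (h : Reg p θ c L k a l) : 0 < a := by linarith [h.hθ, h.ha]

theorem near (h : Reg p θ c L k a l) {x : ℝ} (h1 : a ≤ x) (h2 : x ≤ a + l) :
    3 / 4 * |p.eval a| ≤ |p.eval x| ∧ |p.eval x| ≤ 5 / 4 * |p.eval a| := by
  have h3 := h.lip x a (h.ha.trans h1) (h2.trans h.hal) h.ha (by linarith [h.hl, h.hal])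
  have h4 := h.hp a le_rfl (by linarith [h.hl])
  have h5 : L * |x - a| ≤ L * l := by
    rw [abs_of_nonneg (by linarith)]
    exact mul_le_mul_of_nonneg_left (by linarith) h.hL
  have h6 := h.hLl
  have h7 := abs_sub_abs_le_abs_sub (p.eval x) (p.eval a)
  have h8 := abs_sub_abs_le_abs_sub (p.eval a) (p.eval x)
  rw [abs_sub_comm (p.eval a)] at h8
  constructor <;> linarith

theorem FF_pos (h : Reg p θ c L k a l) : 0 < FF p k a := by
  have h4 := h.hp a le_rfl (by linarith [h.hl])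
  have h5 : 0 < |p.eval a| := lt_of_lt_of_le h.hc h4
  have h6 : (0 : ℝ) < k := by exact_mod_cast h.hk1
  have := h.a_pos
  unfold FF
  positivity

/-- Lower bound for `F` at the other points of the interval. -/
theorem FF_ge (h : Reg p θ c L k a l) {x : ℝ} (h1 : a ≤ x) (h2 : x ≤ a + l) : FF p k a / 2 ≤ FF p k x := by
  have h3 := (h.near h1 h2).1
  have h4 := h.a_pos
  have h5 : a ^ (k - 1) ≤ x ^ (k - 1) := by gcongr
  have h6 : 0 ≤ |p.eval a| := abs_nonneg _
  unfold FF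
  calc (k : ℝ) * |p.eval a| * a ^ (k - 1) / 2 ≤ k * (3 / 4 * |p.eval a|) * a ^ (k - 1) := by
        have : 0 ≤ (k : ℝ) * |p.eval a| * a ^ (k - 1) := by positivity
        linarith
    _ ≤ _ := by gcongr

theorem kl_le (h : Reg p θ c L k a l) (hu : FF p k a * l ≤ 1 / 4) : (k : ℝ) * l ≤ 1 / 16 := by
  have h4 := h.hp a le_rfl (by linarith [h.hl])
  have h5 : θ ^ (k - 1) ≤ a ^ (k - 1) := by
    have := h.hθ
    have := h.ha
    gcongr
  have h6 := h.hk3
  have h7 : 4 ≤ |p.eval a| * a ^ (k - 1) := by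
    refine h6.trans ?_
    have h8 := h.hθ
    exact mul_le_mul h4 h5 (by positivity) (abs_nonneg _)
  have h9 : FF p k a * l = (k * l) * (|p.eval a| * a ^ (k - 1)) := by unfold FF; ring
  have h10 : (0 : ℝ) ≤ k * l := mul_nonneg (Nat.cast_nonneg k) h.hl.le
  nlinarith

theorem pow_le (h : Reg p θ c L k a l) (hu : FF p k a * l ≤ 1 / 4) :
    (a + l) ^ (k - 1) ≤ 11 / 10 * a ^ (k - 1) := by
  have hkl := h.kl_le hu
  have ha0 := h.a_pos
  have hl := h.hl
  have ha1 : 1 ≤ a := by linarith [h.hθ, h.ha]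
  have h4 : a + l ≤ a * Real.exp l := by
    have := Real.add_one_le_exp l
    nlinarith
  have h5 : Real.exp (1 / 16) ≤ 11 / 10 := by
    have h6 : Real.exp (1 / 16) ^ 16 = Real.exp 1 := by rw [← Real.exp_nat_mul]; norm_num
    have h7 := Real.exp_one_lt_d9
    by_contra hc
    push Not at hc
    have : (11 / 10 : ℝ) ^ 16 ≤ Real.exp (1 / 16) ^ 16 := by gcongr
    rw [h6] at this
    norm_num at this
    linarith
  calc (a + l) ^ (k - 1) ≤ (a * Real.exp l) ^ (k - 1) := by gcongr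
    _ = a ^ (k - 1) * Real.exp ((k - 1 : ℕ) * l) := by rw [mul_pow, ← Real.exp_nat_mul]
    _ ≤ a ^ (k - 1) * Real.exp (1 / 16) := by
        gcongr
        have : ((k - 1 : ℕ) : ℝ) ≤ k := by exact_mod_cast Nat.sub_le k 1
        nlinarith
    _ ≤ a ^ (k - 1) * (11 / 10) := by gcongr
    _ = _ := mul_comm _ _

/-- Upper bound for `F` at the other points of a short interval. -/
theorem FF_le (h : Reg p θ c L k a l) (hu : FF p k a * l ≤ 1 / 4) {x : ℝ} (h1 : a ≤ x) (h2 : x ≤ a + l) :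
    FF p k x ≤ 2 * FF p k a := by
  have h3 := (h.near h1 h2).2
  have h4 := h.a_pos
  have h5 : x ^ (k - 1) ≤ 11 / 10 * a ^ (k - 1) := by
    refine le_trans ?_ (h.pow_le hu)
    have : 0 ≤ x := by linarith
    gcongr
  have h6 : 0 ≤ |p.eval a| := abs_nonneg _
  unfold FF
  calc (k : ℝ) * |p.eval x| * x ^ (k - 1) ≤ k * (5 / 4 * |p.eval a|) * (11 / 10 * a ^ (k - 1)) := by
        have : 0 ≤ x := by linarith
        gcongr
    _ ≤ 2 * (k * |p.eval a| * a ^ (k - 1)) := by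
        have : 0 ≤ (k : ℝ) * |p.eval a| * a ^ (k - 1) := by positivity
        nlinarith

/-- Bounds for the differences of the function on a short interval. -/
theorem diff (h : Reg p θ c L k a l) (hu : FF p k a * l ≤ 1 / 4) {x y : ℝ} (hx : a ≤ x) (hxy : x ≤ y)
    (hy : y ≤ a + l) : FF p k a / 2 * (y - x) ≤ |ff p k y - ff p k x| ∧
      |ff p k y - ff p k x| ≤ 2 * FF p k a * (y - x) := by
  have ha0 := h.a_pos
  have hx0 : 0 ≤ x := by linarith
  have hp := h.near (hx.trans hxy) hy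
  have h4 := h.hp a le_rfl (by linarith [h.hl])
  have hP : 0 ≤ |p.eval a| := abs_nonneg _
  have hA : 0 < a ^ (k - 1) := by positivity
  have hlip := h.lip y x (h.ha.trans (hx.trans hxy)) (hy.trans h.hal) (h.ha.trans hx)
    ((hxy.trans hy).trans h.hal)
  rw [abs_of_nonneg (by linarith : 0 ≤ y - x)] at hlip
  have hlow := pow_sub_ge ha0.le hx hxy k
  have hup := pow_sub_le hx0 hxy hy k
  have hpl := h.pow_le hu
  have hL := h.hL
  have hk0 : (0 : ℝ) ≤ k := Nat.cast_nonneg k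
  have hyx : 0 ≤ y - x := by linarith
  have hxk : x ^ k ≤ 11 / 10 * a ^ (k - 1) * (θ + 1) := by
    have e : x ^ k = x ^ (k - 1) * x := by
      rw [← pow_succ]; congr 1; have := h.hk1; omega
    rw [e]
    have h1 : x ^ (k - 1) ≤ 11 / 10 * a ^ (k - 1) := by
      refine le_trans ?_ hpl
      have : x ≤ a + l := hxy.trans hy
      gcongr
    have h2 : x ≤ θ + 1 := (hxy.trans hy).trans h.hal
    exact mul_le_mul h1 h2 hx0 (by positivity)
  have hLk : L * (θ + 1) ≤ k * |p.eval a| / 8 := by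
    have h1 := h.hk2
    have h2 : (k : ℝ) * c ≤ k * |p.eval a| := by gcongr
    linarith
  have hB : |(p.eval y - p.eval x) * x ^ k| ≤ 11 / 80 * FF p k a * (y - x) := by
    rw [abs_mul, abs_of_nonneg (by positivity : 0 ≤ x ^ k)]
    calc |p.eval y - p.eval x| * x ^ k ≤ (L * (y - x)) * (11 / 10 * a ^ (k - 1) * (θ + 1)) := by
          gcongr
      _ = (L * (θ + 1)) * (11 / 10 * a ^ (k - 1) * (y - x)) := by ring
      _ ≤ (k * |p.eval a| / 8) * (11 / 10 * a ^ (k - 1) * (y - x)) := by gcongr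
      _ = _ := by unfold FF; ring
  have hmul : |p.eval y * (y ^ k - x ^ k)| = |p.eval y| * (y ^ k - x ^ k) := by
    rw [abs_mul, abs_of_nonneg (sub_nonneg.2 (by gcongr) : 0 ≤ y ^ k - x ^ k)]
  have hdec : ff p k y - ff p k x = p.eval y * (y ^ k - x ^ k) + (p.eval y - p.eval x) * x ^ k := by
    unfold ff; ring
  have hF0 : 0 ≤ FF p k a * (y - x) := mul_nonneg h.FF_pos.le hyx
  constructor
  · have h1 : 3 / 4 * FF p k a * (y - x) ≤ |p.eval y * (y ^ k - x ^ k)| := by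
      rw [hmul]
      calc 3 / 4 * FF p k a * (y - x) = (3 / 4 * |p.eval a|) * (k * a ^ (k - 1) * (y - x)) := by unfold FF; ring
        _ ≤ |p.eval y| * (y ^ k - x ^ k) := mul_le_mul hp.1 hlow (by positivity) (abs_nonneg _)
    have h2 := abs_sub_abs_le_abs_sub (p.eval y * (y ^ k - x ^ k)) (-((p.eval y - p.eval x) * x ^ k))
    rw [abs_neg, sub_neg_eq_add, ← hdec] at h2
    linarith
  · have h1 : |p.eval y * (y ^ k - x ^ k)| ≤ 11 / 8 * FF p k a * (y - x) := by
      rw [hmul]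
      calc |p.eval y| * (y ^ k - x ^ k) ≤ (5 / 4 * |p.eval a|) * (k * (11 / 10 * a ^ (k - 1)) * (y - x)) := by
            refine mul_le_mul hp.2 (hup.trans ?_) (sub_nonneg.2 (by gcongr)) (by positivity)
            gcongr
        _ = _ := by unfold FF; ring
    have h2 := abs_add_le (p.eval y * (y ^ k - x ^ k)) ((p.eval y - p.eval x) * x ^ k)
    rw [← hdec] at h2
    linarith

/-- Growth in `k`. -/
theorem FF_growth {p : ℝ[X]} {θ a : ℝ} (hθ : 1 < θ) (ha : θ ≤ a) {k k' : ℕ} (hk : 1 ≤ k) (hkk : k ≤ k') :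
    θ ^ (k' - k) * FF p k a ≤ FF p k' a := by
  have ha0 : 0 < a := by linarith
  unfold FF
  have e : a ^ (k' - 1) = a ^ (k' - k) * a ^ (k - 1) := by
    rw [← pow_add]; congr 1; omega
  rw [e]
  have h1 : (k : ℝ) ≤ k' := by exact_mod_cast hkk
  calc θ ^ (k' - k) * (k * |p.eval a| * a ^ (k - 1)) ≤ a ^ (k' - k) * (k' * |p.eval a| * a ^ (k - 1)) := by
        gcongr
    _ = _ := by ring

/-- Subintervals. -/
theorem sub (h : Reg p θ c L k a l) {a' l' : ℝ} (h1 : a ≤ a') (h2 : a' + l' ≤ a + l) (h3 : 0 < l') :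
    Reg p θ c L k a' l' where
  hθ := h.hθ
  ha := h.ha.trans h1
  hal := h2.trans h.hal
  hl := h3
  hc := h.hc
  hL := h.hL
  hp := fun x hx hx' => h.hp x (h1.trans hx) (hx'.trans h2)
  lip := h.lip
  hLl := (mul_le_mul_of_nonneg_left (by linarith) h.hL).trans h.hLl
  hk1 := h.hk1
  hk2 := h.hk2
  hk3 := h.hk3

end Reg

end Pool.Agent.Helper32.DO
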