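import Pool.Agent.Helper32.DO.PolyReg
import Pool.Agent.Helper32.DO.InvTree

/-!
# Potentials
-/

set_option autoImplicit false

namespace Pool.Agent.Helper32.DO

open Set Filter Topology Polynomial
open scoped ENNReal

/-- The interval `[a, a + l]` contains a bad point. -/
def Hit (p : ℝ[X]) (ξ : ℕ → ℝ) (k : ℕ) (δ a l : ℝ) : Prop :=
  ∃ x, a ≤ x ∧ x ≤ a + l ∧ ∃ m : ℤ, |ff p k x - ξ k - m| < δ

open Classical in
/-- The weight of the exponent `k` in the interval `[a, a + l]`. -/
noncomputable def WW (N : ℕ) (p : ℝ[X]) (ξ : ℕ → ℝ) (w : ℝ) (k : ℕ) (a l : ℝ) : ℝ :=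
  if w ^ 2 / (8 * N) ≤ FF p k a * l ∧ FF p k a * l ≤ 1 / 4 ∧ Hit p ξ k (w ^ 2 / (64 * N)) a l then
    w / (2 * √(FF p k a * l)) else 0

variable {N M : ℕ} {p : ℝ[X]} {ξ : ℕ → ℝ} {w : ℝ} {k : ℕ} {θ c L a l : ℝ}

theorem WW_nonneg (hw : 0 ≤ w) : 0 ≤ WW N p ξ w k a l := by
  unfold WW
  split_ifs
  · positivity
  · exact le_rfl

theorem child_sub (hN : 0 < N) (hl : 0 < l) {j : ℕ} (hj : j < N) : a ≤ a + j * (l / N) ∧ a + j * (l / N) + l / N ≤ a + l := by
  have hN0 : (0 : ℝ) < N := by exact_mod_cast hN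
  have h1 : 0 < l / N := by positivity
  have h2 : ((j : ℝ) + 1) ≤ N := by exact_mod_cast hj
  have h3 : ((j : ℝ) + 1) * (l / N) ≤ N * (l / N) := by gcongr
  have h4 : (N : ℝ) * (l / N) = l := by field_simp
  have h5 : (0 : ℝ) ≤ j * (l / N) := by positivity
  constructor
  · linarith
  · linarith

/-- Short images: the total weight of the subintervals. -/
theorem WW_old (hNM : N = M * M) (hM : 2 ≤ M) (h : Reg p θ c L k a l) (hw : 0 < w) (hw1 : w ≤ 1)
    (hu : FF p k a * l ≤ 1 / 4) :
    ∑ j ∈ Finset.range N, WW N p ξ w k (a + j * (l / N)) (l / N) ≤ 4 * M * WW N p ξ w k a l := by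
  classical
  have hM0 : (2 : ℝ) ≤ M := by exact_mod_cast hM
  have hNMr : (N : ℝ) = M * M := by rw [hNM]; push_cast; ring
  have hN4 : (4 : ℝ) ≤ N := by nlinarith
  have hN0 : (0 : ℝ) < N := by linarith
  have hNn : 0 < N := by exact_mod_cast hN0
  have hl := h.hl
  have hF := h.FF_pos
  set U := FF p k a * l with hU
  have hU0 : 0 < U := by positivity
  set τ := w ^ 2 / (8 * N) with hτ
  set δ := w ^ 2 / (64 * N) with hδ
  have hw2 : 0 < w ^ 2 := by positivity
  have hw2' : w ^ 2 ≤ 1 := by nlinarith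
  set J := (Finset.range N).filter (fun j : ℕ => τ ≤ FF p k (a + j * (l / N)) * (l / N) ∧
    FF p k (a + j * (l / N)) * (l / N) ≤ 1 / 4 ∧ Hit p ξ k δ (a + j * (l / N)) (l / N)) with hJ
  have hsum : ∑ j ∈ Finset.range N, WW N p ξ w k (a + j * (l / N)) (l / N) =
      ∑ j ∈ J, w / (2 * √(FF p k (a + j * (l / N)) * (l / N))) := by
    rw [hJ, Finset.sum_filter]
    rfl
  rcases J.eq_empty_or_nonempty with hJe | hne
  · rw [hsum, hJe, Finset.sum_empty]
    have := WW_nonneg (N := N) (p := p) (ξ := ξ) (k := k) (a := a) (l := l) hw.le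
    positivity
  have hmemJ : ∀ j ∈ J, j < N ∧ τ ≤ FF p k (a + j * (l / N)) * (l / N) ∧
      FF p k (a + j * (l / N)) * (l / N) ≤ 1 / 4 ∧ Hit p ξ k δ (a + j * (l / N)) (l / N) := by
    intro j hj
    rw [hJ, Finset.mem_filter, Finset.mem_range] at hj
    exact hj
  have hUN : ∀ j ∈ J, w ^ 2 / 16 ≤ U ∧ U ≤ 2 * N * (FF p k (a + j * (l / N)) * (l / N)) := by
    intro j hj
    obtain ⟨hjN, h1, h2, h3⟩ := hmemJ j hj
    obtain ⟨s1, s2⟩ := child_sub (a := a) hNn hl hjN
    have hlN : 0 < l / N := by positivity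
    have g1 := h.FF_le hu s1 (by linarith)
    have g2 := h.FF_ge s1 (by linarith)
    constructor
    · have e : FF p k (a + j * (l / N)) * (l / N) ≤ 2 * U / N := by
        calc FF p k (a + j * (l / N)) * (l / N) ≤ 2 * FF p k a * (l / N) := by gcongr
          _ = 2 * U / N := by rw [hU]; ring
      have e2 : τ ≤ 2 * U / N := h1.trans e
      rw [hτ, div_le_div_iff₀ (by positivity) hN0] at e2
      have : w ^ 2 * N ≤ (16 * U) * N := by linarith
      have := le_of_mul_le_mul_right this hN0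
      linarith
    · calc U = 2 * N * (FF p k a / 2 * (l / N)) := by rw [hU]; field_simp
        _ ≤ _ := by gcongr
  obtain ⟨j0, hj0⟩ := hne
  have hU16 := (hUN j0 hj0).1
  have hW : WW N p ξ w k a l = w / (2 * √U) := by
    unfold WW
    rw [if_pos]
    refine ⟨?_, hu, ?_⟩
    · refine le_trans ?_ hU16
      apply div_le_div_of_nonneg_left hw2.le (by norm_num)
      linarith
    · obtain ⟨hjN, -, -, x, hx1, hx2, hx3⟩ := hmemJ j0 hj0
      obtain ⟨s1, s2⟩ := child_sub (a := a) hNn hl hjN
      exact ⟨x, s1.trans hx1, hx2.trans s2, hx3⟩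
  have hterm : ∀ j ∈ J, w / (2 * √(FF p k (a + j * (l / N)) * (l / N))) ≤ 2 * M * (w / (2 * √U)) := by
    intro j hj
    have h1 := (hUN j hj).2
    have h2 := (hmemJ j hj).2.1
    set u := FF p k (a + j * (l / N)) * (l / N) with hu'
    have hu0 : 0 < u := lt_of_lt_of_le (by positivity) h2
    have h3 : √U ≤ 2 * M * √u := by
      rw [Real.sqrt_le_iff]
      refine ⟨by positivity, ?_⟩
      rw [mul_pow, Real.sq_sqrt hu0.le]
      calc U ≤ 2 * N * u := h1
        _ ≤ (2 * M) ^ 2 * u := by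
            gcongr
            rw [hNMr]
            nlinarith
    have h4 : 0 < √U := Real.sqrt_pos.2 hU0
    have h5 : 0 < √u := Real.sqrt_pos.2 hu0
    rw [← mul_div_assoc, div_le_div_iff₀ (by positivity) (by positivity)]
    calc w * (2 * √U) ≤ w * (2 * (2 * M * √u)) := by gcongr
      _ = _ := by ring
  have hcard : J.card ≤ 2 := by
    have hsub : J ⊆ Finset.Icc (J.min' ⟨j0, hj0⟩) (J.min' ⟨j0, hj0⟩ + 1) := by
      intro i hi
      rw [Finset.mem_Icc]
      have h1 := J.min'_le i hi
      refine ⟨h1, ?_⟩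
      by_contra hc
      push Not at hc
      obtain ⟨hiN, -, -, y, hy1, hy2, m', hm'⟩ := hmemJ i hi
      obtain ⟨hjN, -, -, x, hx1, hx2, m, hm⟩ := hmemJ _ (J.min'_mem ⟨j0, hj0⟩)
      set j := J.min' ⟨j0, hj0⟩
      have hlN : 0 < l / N := by positivity
      have hij : ((j : ℝ) + 1) + 1 ≤ i := by exact_mod_cast hc
      have hxy : x + l / N ≤ y := by
        have : (a + ((j : ℝ) + 1) * (l / N)) + l / N ≤ a + i * (l / N) := by nlinarith
        linarith
      obtain ⟨s1, s2⟩ := child_sub (a := a) hNn hl hiN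
      obtain ⟨t1, t2⟩ := child_sub (a := a) hNn hl hjN
      obtain ⟨d1, d2⟩ := h.diff hu (t1.trans hx1) (by linarith : x ≤ y) (hy2.trans s2)
      have hδ1 : δ ≤ 1 / 256 := by
        rw [hδ, div_le_div_iff₀ (by positivity) (by norm_num)]
        nlinarith
      have d3 : |ff p k y - ff p k x| ≤ 1 / 2 := by
        refine d2.trans ?_
        have : y - x ≤ l := by linarith
        calc 2 * FF p k a * (y - x) ≤ 2 * FF p k a * l := by gcongr
          _ = 2 * U := by rw [hU]; ring
          _ ≤ 1 / 2 := by linarith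
      rw [abs_lt] at hm hm'
      have hmm : m = m' := by
        have h2 : |(m : ℝ) - m'| < 1 := by
          rw [abs_le] at d3
          rw [abs_lt]
          constructor <;> linarith
        have h3 : |m - m'| < 1 := by exact_mod_cast h2
        have h4 := Int.abs_lt_one_iff.1 h3
        omega
      subst hmm
      have h2 : |ff p k y - ff p k x| < 2 * δ := by
        rw [abs_lt]
        constructor <;> linarith
      have h3 : FF p k a / 2 * (l / N) < 2 * δ := by
        refine lt_of_le_of_lt ?_ (lt_of_le_of_lt d1 h2)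
        gcongr
        linarith
      have h4 : FF p k a / 2 * (l / N) = U / (2 * N) := by rw [hU]; field_simp
      have h5 : 2 * δ = (w ^ 2 / 16) / (2 * N) := by rw [hδ]; field_simp; norm_num
      rw [h4, h5, div_lt_div_iff_of_pos_right (by positivity)] at h3
      linarith
    have h2 := Finset.card_le_card hsub
    rw [Nat.card_Icc] at h2
    omega
  rw [hsum, hW]
  calc ∑ j ∈ J, w / (2 * √(FF p k (a + j * (l / N)) * (l / N))) ≤ J.card • (2 * M * (w / (2 * √U))) :=
        Finset.sum_le_card_nsmul _ _ _ hterm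
    _ = (J.card : ℝ) * (2 * M * (w / (2 * √U))) := nsmul_eq_mul _ _
    _ ≤ 2 * (2 * M * (w / (2 * √U))) := by
        gcongr
        exact_mod_cast hcard
    _ = _ := by ring

/-- Long images. -/
theorem WW_new (hNM : N = M * M) (hM : 1 ≤ M) (h : Reg p θ c L k a l) (hw : 0 < w)
    (hu : 1 / 4 < FF p k a * l) {j : ℕ} (hj : j < N) :
    WW N p ξ w k (a + j * (l / N)) (l / N) ≤ 2 * M * w ∧
      (N / 2 < FF p k a * l → WW N p ξ w k (a + j * (l / N)) (l / N) = 0) := by
  have hM0 : (1 : ℝ) ≤ M := by exact_mod_cast hM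
  have hNMr : (N : ℝ) = M * M := by rw [hNM]; push_cast; ring
  have hN1 : (1 : ℝ) ≤ N := by nlinarith
  have hN0 : (0 : ℝ) < N := by linarith
  have hNn : 0 < N := by exact_mod_cast hN0
  have hl := h.hl
  obtain ⟨s1, s2⟩ := child_sub (a := a) hNn hl hj
  have hlN : 0 < l / N := by positivity
  have g2 := h.FF_ge s1 (by linarith)
  have hU : FF p k a * l ≤ 2 * N * (FF p k (a + j * (l / N)) * (l / N)) := by
    calc FF p k a * l = 2 * N * (FF p k a / 2 * (l / N)) := by field_simp
      _ ≤ _ := by gcongr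
  unfold WW
  constructor
  · split_ifs with hc
    · obtain ⟨-, -, -⟩ := hc
      set u := FF p k (a + j * (l / N)) * (l / N) with hu'
      have hu0 : 1 / (8 * N) < u := by
        rw [div_lt_iff₀ (by positivity)]
        linarith
      have hup : 0 < u := lt_trans (by positivity) hu0
      have h5 : 0 < √u := Real.sqrt_pos.2 hup
      rw [div_le_iff₀ (by positivity)]
      have h6 : 1 ≤ 4 * M * √u := by
        have h7 : 1 ≤ (4 * M * √u) ^ 2 := by
          rw [mul_pow, Real.sq_sqrt hup.le]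
          have h8 : 1 / (8 * N) * (8 * N) < u * (8 * N) := by gcongr
          rw [one_div_mul_cancel (by positivity)] at h8
          rw [hNMr] at h8
          nlinarith
        by_contra hc
        push Not at hc
        have : (4 * M * √u) ^ 2 < 1 := by
          have h9 : 0 ≤ 4 * M * √u := by positivity
          nlinarith
        linarith
      nlinarith
    · positivity
  · intro hbig
    rw [if_neg]
    rintro ⟨-, h2, -⟩
    have : FF p k a * l ≤ 2 * N * (1 / 4) := hU.trans (by gcongr)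
    linarith

/-- The number of new exponents. -/
theorem card_new (hN : 2 ≤ N) (hθ : 1 < θ) (ha : θ ≤ a) (S : Finset ℕ)
    (hS : ∀ k ∈ S, 1 ≤ k ∧ 1 / 4 < FF p k a * l ∧ FF p k a * l ≤ N / 2) :
    S.card ≤ ⌊Real.log (2 * N) / Real.log θ⌋₊ + 1 := by
  have hN0 : (2 : ℝ) ≤ N := by exact_mod_cast hN
  rcases S.eq_empty_or_nonempty with rfl | hne
  · simp
  have ha0 : 0 < a := by linarith
  have hlogθ : 0 < Real.log θ := Real.log_pos hθ
  have hsub : S ⊆ Finset.Icc (S.min' hne) (S.min' hne + ⌊Real.log (2 * N) / Real.log θ⌋₊) := by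
    intro k' hk'
    rw [Finset.mem_Icc]
    have h1 := S.min'_le k' hk'
    refine ⟨h1, ?_⟩
    obtain ⟨hk1, hk2, hk3⟩ := hS _ (S.min'_mem hne)
    obtain ⟨hk1', hk2', hk3'⟩ := hS k' hk'
    set k := S.min' hne
    have h2 : k' - k ≤ ⌊Real.log (2 * N) / Real.log θ⌋₊ := by
      rw [Nat.le_floor_iff (div_nonneg (Real.log_nonneg (by linarith)) hlogθ.le), le_div_iff₀ hlogθ]
      have h3 := Reg.FF_growth (p := p) hθ ha hk1 h1
      have h4 : θ ^ (k' - k) * (1 / 4) < N / 2 := by
        have hl : 0 < l := by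
          have h5 : 0 ≤ FF p k a := by unfold FF; positivity
          by_contra hc
          push Not at hc
          have := mul_nonpos_of_nonneg_of_nonpos h5 hc
          linarith
        calc θ ^ (k' - k) * (1 / 4) < θ ^ (k' - k) * (FF p k a * l) := by gcongr
          _ = θ ^ (k' - k) * FF p k a * l := by ring
          _ ≤ FF p k' a * l := by gcongr
          _ ≤ N / 2 := hk3'
      have h6 : θ ^ (k' - k) ≤ 2 * N := by linarith
      have h7 := Real.log_le_log (by positivity) h6
      rwa [Real.log_pow] at h7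
    omega
  have h2 := Finset.card_le_card hsub
  rw [Nat.card_Icc] at h2
  omega

end Pool.Agent.Helper32.DO
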