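import Pool.Agent.Helper32.DO.Pot

/-!
# The total potential and its average over the subcells
-/

set_option autoImplicit false

namespace Pool.Agent.Helper32.DO

open Set Filter Topology Polynomial
open scoped ENNReal

open Classical in
/-- The potential of the exponents of one polynomial. -/
noncomputable def Psi (N : ℕ) (p : ℝ[X]) (ξ : ℕ → ℝ) (w : ℝ) (k0 n0 n : ℕ) (a l : ℝ) : ℝ≥0∞ :=
  if n0 < n then ∑' k : ℕ, (if k0 ≤ k then ENNReal.ofReal (WW N p ξ w k a l) else 0) else 0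

open Classical in
/-- The potential of the roots of one polynomial. -/
noncomputable def Zer (Z : Finset ℝ) (v : ℝ) (M n : ℕ) (a l : ℝ) : ℝ≥0∞ :=
  ∑ ρ ∈ Z, if a - l ≤ ρ ∧ ρ ≤ a + 2 * l then ENNReal.ofReal (v * (M : ℝ) ^ n) else 0

variable {N M : ℕ} {p : ℝ[X]} {ξ : ℕ → ℝ} {w : ℝ} {θ c L a l : ℝ}

theorem Psi_step (hNM : N = M * M) (hM : 2 ≤ M) (hw : 0 < w) (hw1 : w ≤ 1) (hθ : 1 < θ) (ha : θ ≤ a)
    {n0 n k0 : ℕ} (hk0 : 1 ≤ k0) (hreg : n0 ≤ n → ∀ k, k0 ≤ k → Reg p θ c L k a l)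
    (hbirth : n0 = n → ∀ k, k0 ≤ k → 1 / 4 < FF p k a * l) :
    ∑ j ∈ Finset.range N, Psi N p ξ w k0 n0 (n + 1) (a + j * (l / N)) (l / N) ≤
      ENNReal.ofReal (4 * M) * Psi N p ξ w k0 n0 n a l +
        ENNReal.ofReal (((⌊Real.log (2 * N) / Real.log θ⌋₊ + 1 : ℕ) : ℝ) * (N * (2 * M * w))) := by
  classical
  have hM0 : (2 : ℝ) ≤ M := by exact_mod_cast hM
  have hNMr : (N : ℝ) = M * M := by rw [hNM]; push_cast; ring
  have hN4 : (4 : ℝ) ≤ N := by nlinarith
  have hN2 : 2 ≤ N := by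
    have : (2 : ℝ) ≤ N := by linarith
    exact_mod_cast this
  by_cases hn : n0 ≤ n
  swap
  · have h0 : ∀ j ∈ Finset.range N, Psi N p ξ w k0 n0 (n + 1) (a + j * (l / N)) (l / N) = 0 := by
      intro j _
      unfold Psi
      rw [if_neg (by omega)]
    rw [Finset.sum_congr rfl h0, Finset.sum_const_zero]
    exact zero_le
  have hcount : ∑' k : ℕ, (if k0 ≤ k ∧ 1 / 4 < FF p k a * l ∧ FF p k a * l ≤ N / 2 then
      ENNReal.ofReal (N * (2 * M * w)) else 0) ≤
      ENNReal.ofReal (((⌊Real.log (2 * N) / Real.log θ⌋₊ + 1 : ℕ) : ℝ) * (N * (2 * M * w))) := by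
    refine ENNReal.tsum_le_of_sum_range_le fun m => ?_
    have e : ENNReal.ofReal (((⌊Real.log (2 * N) / Real.log θ⌋₊ + 1 : ℕ) : ℝ) * (N * (2 * M * w))) =
        ((⌊Real.log (2 * N) / Real.log θ⌋₊ + 1 : ℕ) : ℝ≥0∞) * ENNReal.ofReal (N * (2 * M * w)) := by
      rw [ENNReal.ofReal_mul (Nat.cast_nonneg _), ENNReal.ofReal_natCast]
    rw [← Finset.sum_filter, Finset.sum_const, nsmul_eq_mul, e]
    refine mul_le_mul_left ?_ _
    rw [Nat.cast_le]
    refine card_new (p := p) (l := l) hN2 hθ ha _ fun k hk => ?_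
    rw [Finset.mem_filter] at hk
    exact ⟨hk0.trans hk.2.1, hk.2.2⟩
  have hterm : ∀ k : ℕ, ∑ j ∈ Finset.range N,
      (if k0 ≤ k then ENNReal.ofReal (WW N p ξ w k (a + j * (l / N)) (l / N)) else 0) ≤
      ENNReal.ofReal (4 * M) * (if n0 < n then (if k0 ≤ k then ENNReal.ofReal (WW N p ξ w k a l) else 0) else 0) +
      (if k0 ≤ k ∧ 1 / 4 < FF p k a * l ∧ FF p k a * l ≤ N / 2 then ENNReal.ofReal (N * (2 * M * w)) else 0) := by
    intro k
    by_cases hk : k0 ≤ k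
    swap
    · simp [hk]
    have hr := hreg hn k hk
    simp only [if_pos hk]
    rw [← ENNReal.ofReal_sum_of_nonneg (fun j _ => WW_nonneg hw.le)]
    by_cases hu : FF p k a * l ≤ 1 / 4
    · have hn' : n0 < n := by
        rcases Nat.lt_or_ge n0 n with h | h
        · exact h
        · have := hbirth (by omega) k hk
          linarith
      rw [if_pos hn', ← ENNReal.ofReal_mul (by positivity)]
      refine le_trans (ENNReal.ofReal_le_ofReal ?_) le_self_add
      exact WW_old hNM hM hr hw hw1 hu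
    · push Not at hu
      refine le_trans ?_ le_add_self
      by_cases hb : FF p k a * l ≤ N / 2
      · rw [if_pos ⟨hk, hu, hb⟩]
        apply ENNReal.ofReal_le_ofReal
        calc ∑ j ∈ Finset.range N, WW N p ξ w k (a + j * (l / N)) (l / N) ≤
              (Finset.range N).card • (2 * M * w) := by
              refine Finset.sum_le_card_nsmul _ _ _ fun j hj => ?_
              exact (WW_new hNM (by omega) hr hw hu (Finset.mem_range.1 hj)).1
          _ = N * (2 * M * w) := by rw [Finset.card_range, nsmul_eq_mul]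
      · push Not at hb
        rw [Finset.sum_eq_zero (fun j hj => (WW_new hNM (by omega) hr hw hu (Finset.mem_range.1 hj)).2 hb),
          ENNReal.ofReal_zero]
        exact zero_le
  calc ∑ j ∈ Finset.range N, Psi N p ξ w k0 n0 (n + 1) (a + j * (l / N)) (l / N)
      = ∑ j ∈ Finset.range N, ∑' k : ℕ,
          (if k0 ≤ k then ENNReal.ofReal (WW N p ξ w k (a + j * (l / N)) (l / N)) else 0) := by
        refine Finset.sum_congr rfl fun j _ => ?_
        unfold Psi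
        rw [if_pos (by omega)]
    _ = ∑' k : ℕ, ∑ j ∈ Finset.range N,
          (if k0 ≤ k then ENNReal.ofReal (WW N p ξ w k (a + j * (l / N)) (l / N)) else 0) :=
        (Summable.tsum_finsetSum fun j _ => ENNReal.summable).symm
    _ ≤ ∑' k : ℕ, (ENNReal.ofReal (4 * M) *
          (if n0 < n then (if k0 ≤ k then ENNReal.ofReal (WW N p ξ w k a l) else 0) else 0) +
          (if k0 ≤ k ∧ 1 / 4 < FF p k a * l ∧ FF p k a * l ≤ N / 2 then ENNReal.ofReal (N * (2 * M * w)) else 0)) :=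
        ENNReal.tsum_le_tsum hterm
    _ = ENNReal.ofReal (4 * M) * Psi N p ξ w k0 n0 n a l +
          ∑' k : ℕ, (if k0 ≤ k ∧ 1 / 4 < FF p k a * l ∧ FF p k a * l ≤ N / 2 then
            ENNReal.ofReal (N * (2 * M * w)) else 0) := by
        rw [ENNReal.tsum_add, ENNReal.tsum_mul_left]
        congr 2
        unfold Psi
        split_ifs
        · rfl
        · exact tsum_zero
    _ ≤ _ := by gcongr

theorem Zer_step (hN : 0 < N) (hl : 0 < l) (Z : Finset ℝ) {v : ℝ} (n : ℕ) :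
    ∑ j ∈ Finset.range N, Zer Z v M (n + 1) (a + j * (l / N)) (l / N) ≤
      ENNReal.ofReal (4 * M) * Zer Z v M n a l := by
  classical
  have hN0 : (0 : ℝ) < N := by exact_mod_cast hN
  have hlN : 0 < l / N := by positivity
  unfold Zer
  rw [Finset.sum_comm, Finset.mul_sum]
  refine Finset.sum_le_sum fun ρ _ => ?_
  rw [← Finset.sum_filter, Finset.sum_const, nsmul_eq_mul]
  set J := (Finset.range N).filter (fun j : ℕ => a + j * (l / N) - l / N ≤ ρ ∧ ρ ≤ a + j * (l / N) + 2 * (l / N))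
    with hJ
  rcases J.eq_empty_or_nonempty with hJe | hne
  · rw [hJe, Finset.card_empty, Nat.cast_zero, zero_mul]
    exact zero_le
  obtain ⟨j, hj⟩ := hne
  have hcard : J.card ≤ 4 := by
    have h1 : (J.card : ℝ) ≤ 2 * (3 / 2) + 1 := by
      apply FS.card_near ((ρ - a) / (l / N) - 1 / 2) _ (by norm_num)
      intro i hi
      rw [hJ, Finset.mem_filter] at hi
      obtain ⟨-, h2, h3⟩ := hi
      have e : (i : ℝ) - ((ρ - a) / (l / N) - 1 / 2) = (a + i * (l / N) - ρ) / (l / N) + 1 / 2 := by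
        field_simp
        ring
      rw [e, abs_le]
      constructor
      · have : -2 ≤ (a + i * (l / N) - ρ) / (l / N) := by
          rw [le_div_iff₀ hlN]
          linarith
        linarith
      · have : (a + i * (l / N) - ρ) / (l / N) ≤ 1 := by
          rw [div_le_iff₀ hlN]
          linarith
        linarith
    have h2 : (J.card : ℝ) ≤ (4 : ℕ) := by push_cast; linarith
    exact_mod_cast h2
  rw [hJ, Finset.mem_filter, Finset.mem_range] at hj
  obtain ⟨hjN, h1, h2⟩ := hj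
  obtain ⟨s1, s2⟩ := child_sub (a := a) hN hl hjN
  rw [if_pos (by
    have hle : l / N ≤ l := by
      rw [div_le_iff₀ hN0]
      have : (1 : ℝ) ≤ N := by exact_mod_cast hN
      nlinarith
    constructor <;> linarith)]
  calc (J.card : ℝ≥0∞) * ENNReal.ofReal (v * (M : ℝ) ^ (n + 1)) ≤ (4 : ℕ) * ENNReal.ofReal (v * (M : ℝ) ^ (n + 1)) := by
        gcongr
    _ = ENNReal.ofReal (4 * M) * ENNReal.ofReal (v * (M : ℝ) ^ n) := by
        rw [← ENNReal.ofReal_natCast, ← ENNReal.ofReal_mul (by norm_num), ← ENNReal.ofReal_mul (by positivity)]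
        congr 1
        push_cast
        ring

/-- The total potential. -/
noncomputable def Phi (N M : ℕ) (p : ℕ → ℝ[X]) (ξ : ℕ → ℕ → ℝ) (Z : ℕ → Finset ℝ) (v w : ℕ → ℝ) (k0 n0 : ℕ → ℕ)
    (n : ℕ) (a l : ℝ) : ℝ≥0∞ :=
  ∑' i, (Zer (Z i) (v i) M n a l + Psi N (p i) (ξ i) (w i) (k0 i) (n0 i) n a l)

theorem Phi_step {p : ℕ → ℝ[X]} {ξ : ℕ → ℕ → ℝ} {Z : ℕ → Finset ℝ} {v w c L : ℕ → ℝ} {k0 n0 : ℕ → ℕ}
    (hNM : N = M * M) (hM : 2 ≤ M) (hv : ∀ i, 0 ≤ v i) (hw : ∀ i, 0 < w i) (hw1 : ∀ i, w i ≤ 1) (hθ : 1 < θ)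
    (ha : θ ≤ a) (hl : 0 < l) {n : ℕ} (hk0 : ∀ i, 1 ≤ k0 i)
    (hreg : ∀ i, n0 i ≤ n → ∀ k, k0 i ≤ k → Reg (p i) θ (c i) (L i) k a l)
    (hbirth : ∀ i, n0 i = n → ∀ k, k0 i ≤ k → 1 / 4 < FF (p i) k a * l) :
    ∑ j ∈ Finset.range N, Phi N M p ξ Z v w k0 n0 (n + 1) (a + j * (l / N)) (l / N) ≤
      ENNReal.ofReal (4 * M) * Phi N M p ξ Z v w k0 n0 n a l +
        ∑' i, ENNReal.ofReal (((⌊Real.log (2 * N) / Real.log θ⌋₊ + 1 : ℕ) : ℝ) * (N * (2 * M * w i))) := by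
  have hN : 0 < N := by rw [hNM]; positivity
  calc ∑ j ∈ Finset.range N, Phi N M p ξ Z v w k0 n0 (n + 1) (a + j * (l / N)) (l / N)
      = ∑' i, ∑ j ∈ Finset.range N, (Zer (Z i) (v i) M (n + 1) (a + j * (l / N)) (l / N) +
          Psi N (p i) (ξ i) (w i) (k0 i) (n0 i) (n + 1) (a + j * (l / N)) (l / N)) :=
        (Summable.tsum_finsetSum fun j _ => ENNReal.summable).symm
    _ ≤ ∑' i, (ENNReal.ofReal (4 * M) * (Zer (Z i) (v i) M n a l + Psi N (p i) (ξ i) (w i) (k0 i) (n0 i) n a l) +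
          ENNReal.ofReal (((⌊Real.log (2 * N) / Real.log θ⌋₊ + 1 : ℕ) : ℝ) * (N * (2 * M * w i)))) := by
        refine ENNReal.tsum_le_tsum fun i => ?_
        rw [Finset.sum_add_distrib, mul_add, add_assoc]
        exact add_le_add (Zer_step hN hl (Z i) n)
          (Psi_step hNM hM (hw i) (hw1 i) hθ ha (hk0 i) (hreg i) (hbirth i))
    _ = _ := by rw [ENNReal.tsum_add, ENNReal.tsum_mul_left]; rfl

/-- Many subcells have a small potential. -/
theorem exists_good {p : ℕ → ℝ[X]} {ξ : ℕ → ℕ → ℝ} {Z : ℕ → Finset ℝ} {v w c L : ℕ → ℝ} {k0 n0 : ℕ → ℕ}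
    (hNM : N = M * M) (hM : 32 ≤ M) (hv : ∀ i, 0 ≤ v i) (hw : ∀ i, 0 < w i) (hw1 : ∀ i, w i ≤ 1) (hθ : 1 < θ)
    (ha : θ ≤ a) (hl : 0 < l) {n : ℕ} (hk0 : ∀ i, 1 ≤ k0 i)
    (hreg : ∀ i, n0 i ≤ n → ∀ k, k0 i ≤ k → Reg (p i) θ (c i) (L i) k a l)
    (hbirth : ∀ i, n0 i = n → ∀ k, k0 i ≤ k → 1 / 4 < FF (p i) k a * l)
    (hws : ∑' i, ENNReal.ofReal (((⌊Real.log (2 * N) / Real.log θ⌋₊ + 1 : ℕ) : ℝ) * (N * (2 * M * w i))) ≤
      ENNReal.ofReal (N / 8))
    (hP : Phi N M p ξ Z v w k0 n0 n a l ≤ 1) :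
    ∃ A : Finset ℕ, 3 * N ≤ 4 * A.card ∧ ∀ j ∈ A, j < N ∧
      Phi N M p ξ Z v w k0 n0 (n + 1) (a + j * (l / N)) (l / N) ≤ 1 := by
  classical
  have hM0 : (32 : ℝ) ≤ M := by exact_mod_cast hM
  have hNMr : (N : ℝ) = M * M := by rw [hNM]; push_cast; ring
  have h1 := Phi_step hNM (by omega) hv hw hw1 hθ ha hl hk0 hreg hbirth (ξ := ξ) (Z := Z)
  have h2 : ∑ j ∈ Finset.range N, Phi N M p ξ Z v w k0 n0 (n + 1) (a + j * (l / N)) (l / N) ≤
      ENNReal.ofReal (N / 4) := by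
    calc _ ≤ ENNReal.ofReal (4 * M) * 1 + ENNReal.ofReal (N / 8) := h1.trans (by gcongr)
      _ = ENNReal.ofReal (4 * M + N / 8) := by
          rw [mul_one, ← ENNReal.ofReal_add (by positivity) (by positivity)]
      _ ≤ _ := by
          apply ENNReal.ofReal_le_ofReal
          rw [hNMr]
          nlinarith
  set A := (Finset.range N).filter (fun j : ℕ => Phi N M p ξ Z v w k0 n0 (n + 1) (a + j * (l / N)) (l / N) ≤ 1) with hA
  set B := (Finset.range N).filter (fun j : ℕ => ¬ Phi N M p ξ Z v w k0 n0 (n + 1) (a + j * (l / N)) (l / N) ≤ 1) with hB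
  have hAB : A.card + B.card = N := by
    rw [hA, hB, Finset.card_filter_add_card_filter_not, Finset.card_range]
  have hBc : (B.card : ℝ≥0∞) ≤ ENNReal.ofReal (N / 4) := by
    calc (B.card : ℝ≥0∞) = ∑ j ∈ B, 1 := by simp
      _ ≤ ∑ j ∈ B, Phi N M p ξ Z v w k0 n0 (n + 1) (a + j * (l / N)) (l / N) := by
          refine Finset.sum_le_sum fun j hj => ?_
          rw [hB, Finset.mem_filter] at hj
          exact (not_le.1 hj.2).le
      _ ≤ ∑ j ∈ Finset.range N, Phi N M p ξ Z v w k0 n0 (n + 1) (a + j * (l / N)) (l / N) :=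
          Finset.sum_le_sum_of_subset (Finset.filter_subset _ _)
      _ ≤ _ := h2
  have hBr : (B.card : ℝ) ≤ N / 4 := by
    rw [← ENNReal.ofReal_natCast, ENNReal.ofReal_le_ofReal_iff (by positivity)] at hBc
    exact hBc
  refine ⟨A, ?_, fun j hj => ?_⟩
  · have h3 : ((A.card + B.card : ℕ) : ℝ) = N := by exact_mod_cast hAB
    push_cast at h3
    have h4 : (3 * N : ℝ) ≤ 4 * A.card := by linarith
    exact_mod_cast h4
  · rw [hA, Finset.mem_filter, Finset.mem_range] at hj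
    exact hj

end Pool.Agent.Helper32.DO
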